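import Pool.Agent.V7H39.KS.Base

set_option autoImplicit false

open Set Metric Filter Module
open scoped ENNReal NNReal InnerProductSpace

namespace Pool.Agent.V7H39.KS

variable {E : Type*} [NormedAddCommGroup E] [InnerProductSpace ℝ E] [FiniteDimensional ℝ E]

theorem isClosed_dirs {F : Set E} (hF : IsCompact F) {l : ℝ} (hl : 0 ≤ l) {Q : E × E → Prop}
    (hQ : IsClosed {p | Q p}) :
    IsClosed {e : E | ‖e‖ = 1 ∧ ∃ a, (∀ t ∈ Icc (0 : ℝ) l, a + t • e ∈ F) ∧ Q (e, a)} := by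
  have hP : IsCompact ((sphere (0 : E) 1 ×ˢ F) ∩
      ((⋂ t ∈ Icc (0 : ℝ) l, {p : E × E | p.2 + t • p.1 ∈ F}) ∩ {p | Q p})) := by
    refine ((isCompact_sphere _ _).prod hF).inter_right (IsClosed.inter ?_ hQ)
    exact isClosed_biInter fun t _ => hF.isClosed.preimage (by fun_prop)
  have h2 := (hP.image continuous_fst).isClosed
  convert h2 using 1
  ext e
  simp only [mem_ofPred_eq, mem_image, mem_inter_iff, mem_prod, mem_sphere, dist_zero_right,
    mem_iInter, Prod.exists]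
  constructor
  · rintro ⟨h1, a, h3, h4⟩
    exact ⟨e, a, ⟨⟨h1, by simpa using h3 0 ⟨le_rfl, hl⟩⟩, h3, h4⟩, rfl⟩
  · rintro ⟨e', a, ⟨⟨h1, h3⟩, h4, h5⟩, rfl⟩
    exact ⟨h1, a, h4, h5⟩

/-- Baire category argument for directions. -/
theorem baire_dirs {ι : Type*} [Countable ι] (F : ι → Set E) (hF : ∀ i, IsCompact (F i))
    (l : ι → ℝ) (hl : ∀ i, 0 ≤ l i) (Q : ι → E × E → Prop) (hQ : ∀ i, IsClosed {p | Q i p})
    {e0 : E} (he0 : ‖e0‖ = 1) {r : ℝ} (hr : 0 < r)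
    (hcov : ∀ e, ‖e‖ = 1 → ‖e - e0‖ < r →
      ∃ i a, (∀ t ∈ Icc (0 : ℝ) (l i), a + t • e ∈ F i) ∧ Q i (e, a)) :
    ∃ (i : ι) (e2 : E) (r2 : ℝ), ‖e2‖ = 1 ∧ ‖e2 - e0‖ < r ∧ 0 < r2 ∧
      ∀ e, ‖e‖ = 1 → ‖e - e2‖ < r2 → ∃ a, (∀ t ∈ Icc (0 : ℝ) (l i), a + t • e ∈ F i) ∧ Q i (e, a) := by
  let X := sphere (0 : E) 1
  have hX : ∀ {e : E}, ‖e‖ = 1 → e ∈ X := fun h => by simpa [X] using h
  set f : Option ι → Set X := fun o => match o with
    | none => {x : X | r ≤ ‖(x : E) - e0‖}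
    | some i => {x : X | (x : E) ∈ {e : E | ‖e‖ = 1 ∧ ∃ a, (∀ t ∈ Icc (0 : ℝ) (l i), a + t • e ∈ F i) ∧
        Q i (e, a)}} with hf
  have hfc : ∀ o, IsClosed (f o) := by
    intro o
    cases o with
    | none => exact isClosed_le continuous_const (by fun_prop)
    | some i => exact (isClosed_dirs (hF i) (hl i) (hQ i)).preimage continuous_subtype_val
  have hfu : ⋃ o, f o = univ := by
    rw [eq_univ_iff_forall]
    intro x
    rw [mem_iUnion]
    have hx1 : ‖(x : E)‖ = 1 := by simpa using x.2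
    by_cases hx : r ≤ ‖(x : E) - e0‖
    · exact ⟨none, hx⟩
    · obtain ⟨i, a, h1, h2⟩ := hcov x hx1 (not_le.1 hx)
      exact ⟨some i, hx1, a, h1, h2⟩
  have hd := dense_iUnion_interior_of_closed hfc hfu
  have hop : IsOpen {x : X | ‖(x : E) - e0‖ < r} := isOpen_lt (by fun_prop) continuous_const
  obtain ⟨x, hx, hx2⟩ := hd.exists_mem_open hop ⟨⟨e0, hX he0⟩, by simpa using hr⟩
  rw [mem_iUnion] at hx
  obtain ⟨o, ho⟩ := hx
  cases o with
  | none =>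
    have h1 : x ∈ f none := interior_subset ho
    have h1 : r ≤ ‖(x : E) - e0‖ := h1
    exact absurd hx2 (not_lt.2 h1)
  | some i =>
    obtain ⟨r2, hr2, hb⟩ := Metric.isOpen_iff.1 isOpen_interior x ho
    refine ⟨i, x, r2, by simpa using x.2, hx2, hr2, fun e he1 he2 => ?_⟩
    have h1 : (⟨e, hX he1⟩ : X) ∈ ball x r2 := by
      rw [mem_ball, Subtype.dist_eq, dist_eq_norm]
      exact he2
    exact (interior_subset (hb h1)).2

end Pool.Agent.V7H39.KS
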