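import Pool.Agent.V7H39.KS.Defs

set_option autoImplicit false

open Set Metric Module
open scoped ENNReal NNReal

namespace Pool.Agent.V7H39.KS

theorem kakeyaDim_le {m : ℕ} {K : Set (EuclideanSpace ℝ (Fin m))} (hK : IsKakeya K) :
    kakeyaDim m ≤ dimH K := iInf₂_le K hK

/-- `L` contains a segment of length `l` in each direction near `e0`. -/
def SegNear {V : Type*} [NormedAddCommGroup V] [InnerProductSpace ℝ V]
    (L : Set V) (l : ℝ) (e0 : V) (r : ℝ) : Prop :=
  ∀ e : V, ‖e‖ = 1 → ‖e - e0‖ < r → ∃ a : V, ∀ t ∈ Icc (0 : ℝ) l, a + t • e ∈ L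

theorem kakeyaDim_le_of_segNear {V : Type*} [NormedAddCommGroup V] [InnerProductSpace ℝ V]
    [FiniteDimensional ℝ V] {m : ℕ} (hm : finrank ℝ V = m) {L : Set V} (hL : IsCompact L)
    {e0 : V} (he0 : ‖e0‖ = 1) {r l : ℝ} (hr : 0 < r) (hl : 0 < l) (hseg : SegNear L l e0 r) :
    kakeyaDim m ≤ dimH L := by
  classical
  have hS : IsCompact (sphere (0 : V) 1) := isCompact_sphere _ _
  obtain ⟨T, hT1, hT2⟩ := hS.elim_finite_subcover_image (b := sphere (0 : V) 1)
    (c := fun e => ball e r) (fun e _ => isOpen_ball) (fun e he => by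
      rw [mem_iUnion₂]
      exact ⟨e, he, mem_ball_self hr⟩)
  have Φ : V ≃ₗᵢ[ℝ] EuclideanSpace ℝ (Fin m) :=
    (stdOrthonormalBasis ℝ V).repr.trans (LinearIsometryEquiv.piLpCongrLeft 2 ℝ ℝ (finCongr hm))
  set R : V → (V ≃ₗᵢ[ℝ] V) := fun e => (ℝ ∙ (e0 - e))ᗮ.reflection with hR
  have hRe : ∀ e : V, ‖e‖ = 1 → R e e0 = e := by
    intro e he
    exact Submodule.reflection_sub (by rw [he0, he])
  set F : V → V → EuclideanSpace ℝ (Fin m) := fun e x => Φ ((1 / l) • R e x) with hF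
  have hlip : ∀ e, LipschitzWith ‖(1 / l : ℝ)‖₊ (F e) := by
    intro e
    refine LipschitzWith.of_dist_le_mul fun x y => ?_
    rw [hF]
    simp only
    rw [Φ.dist_map, dist_smul₀, (R e).dist_map]
    rfl
  have hK : IsKakeya (⋃ e ∈ T, F e '' L) := by
    refine ⟨hT2.1.isCompact_biUnion fun e _ => hL.image (hlip e).continuous, ?_⟩
    intro f hf
    have hf' : Φ.symm f ∈ sphere (0 : V) 1 := by simp [hf]
    have := hT2.2 hf'
    rw [mem_iUnion₂] at this
    obtain ⟨e, heT, hfe⟩ := this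
    have he1 : ‖e‖ = 1 := by simpa using hT1 heT
    set g : V := (R e).symm (Φ.symm f) with hg
    have hg1 : ‖g‖ = 1 := by rw [hg, LinearIsometryEquiv.norm_map]; simpa using hf'
    have hg2 : ‖g - e0‖ < r := by
      rw [mem_ball, dist_eq_norm] at hfe
      rw [← (R e).norm_map, map_sub, hRe e he1, hg, LinearIsometryEquiv.apply_symm_apply]
      exact hfe
    obtain ⟨a, ha⟩ := hseg g hg1 hg2
    refine ⟨F e a, fun t ht => ?_⟩
    rw [mem_iUnion₂]
    refine ⟨e, heT, a + (t * l) • g, ha _ ⟨by have := ht.1; positivity, ?_⟩, ?_⟩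
    · nlinarith [ht.2]
    · rw [hF]
      simp only
      rw [map_add, smul_add, map_add, map_smul (R e), hg, LinearIsometryEquiv.apply_symm_apply,
        smul_smul, map_smul Φ ((1 / l) * (t * l)), LinearIsometryEquiv.apply_symm_apply]
      congr 2
      field_simp
  refine (kakeyaDim_le hK).trans ?_
  rw [dimH_bUnion hT2.1.countable]
  exact iSup₂_le fun e _ => (hlip e).dimH_image_le L

end Pool.Agent.V7H39.KS
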