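import Pool.Agent.V7H39.KS.Haar
import Pool.Agent.V7H39.KS.Base

set_option autoImplicit false

open MeasureTheory MeasureTheory.Measure Set Metric Filter Module
open scoped ENNReal NNReal InnerProductSpace

namespace Pool.Agent.V7H39.KS

variable {E : Type*} [NormedAddCommGroup E] [InnerProductSpace ℝ E] [FiniteDimensional ℝ E]

theorem cone_dim_bdd (V : Submodule ℝ E) (w p : E) (hV : ∀ y : V, ⟪w, (y : E)⟫_ℝ = 0)
    (hp : ⟪w, p⟫_ℝ = 1) (L : Set V) (hne : L.Nonempty) (R : ℝ) (hR : ∀ y ∈ L, ‖y‖ ≤ R) (C : Set E)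
    (hC : ∀ y ∈ L, ∀ t ∈ Icc (1 / 2 : ℝ) 1, t • ((y : E) + p) ∈ C) :
    dimH L + 1 ≤ dimH C := by
  have h1 := dimH_prod_ball ℝ L (3 / 4) (1 / 4) (by norm_num) hne
  rw [finrank_self, Nat.cast_one] at h1
  refine h1.trans ?_
  set ψ : E → V × ℝ := fun z => (V.orthogonalProjectionOnto ((⟪w, z⟫_ℝ)⁻¹ • z - p), ⟪w, z⟫_ℝ) with hψ
  set S : Set E := {z | (1 / 2 : ℝ) ≤ ⟪w, z⟫_ℝ ∧ ‖z‖ ≤ R + ‖p‖} with hS
  have hin : ∀ y : V, ∀ t : ℝ, ⟪w, t • ((y : E) + p)⟫_ℝ = t := by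
    intro y t
    rw [inner_smul_right, inner_add_right, hV y, hp]
    ring
  have hR0 : 0 ≤ R := by
    obtain ⟨y, hy⟩ := hne
    exact (norm_nonneg y).trans (hR y hy)
  have hsub : L ×ˢ closedBall (3 / 4 : ℝ) (1 / 4) ⊆ ψ '' (C ∩ S) := by
    rintro ⟨y, t⟩ ⟨hy, ht⟩
    rw [Real.closedBall_eq_Icc] at ht
    simp only at hy ht
    have ht' : t ∈ Icc (1 / 2 : ℝ) 1 := ⟨by linarith [ht.1], by linarith [ht.2]⟩
    have ht0 : t ≠ 0 := by have := ht'.1; intro h; rw [h] at this; norm_num at this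
    refine ⟨t • ((y : E) + p), ⟨hC y hy t ht', ?_, ?_⟩, ?_⟩
    · rw [hin]; exact ht'.1
    · rw [norm_smul, Real.norm_eq_abs, abs_of_nonneg (by linarith [ht'.1])]
      have h2 : ‖(y : E) + p‖ ≤ R + ‖p‖ := (norm_add_le _ _).trans (by
        have := hR y hy
        rw [Submodule.coe_norm] at this
        linarith)
      have h3 : 0 ≤ ‖(y : E) + p‖ := norm_nonneg _
      nlinarith [ht'.2]
    · rw [hψ]
      simp only
      rw [hin, smul_smul, inv_mul_cancel₀ ht0, one_smul, add_sub_cancel_right,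
        Submodule.orthogonalProjectionOnto_mem_subspace_eq_self]
  have hlip : LipschitzOnWith (Real.toNNReal (2 + 4 * (R + ‖p‖) * ‖w‖ + ‖w‖)) ψ (C ∩ S) := by
    refine LipschitzOnWith.of_dist_le_mul fun z hz z' hz' => ?_
    have hM : 0 ≤ R + ‖p‖ := by positivity
    rw [Real.coe_toNNReal _ (by positivity), Prod.dist_eq, dist_eq_norm z z']
    set s := ⟪w, z⟫_ℝ with hs
    set s' := ⟪w, z'⟫_ℝ with hs'
    have hs0 : 0 < s := by linarith [hz.2.1]
    have hs0' : 0 < s' := by linarith [hz'.2.1]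
    have hss : |s - s'| ≤ ‖w‖ * ‖z - z'‖ := by
      rw [hs, hs', ← inner_sub_right]
      exact abs_real_inner_le_norm _ _
    have hd : 0 ≤ ‖z - z'‖ := norm_nonneg _
    have hw : 0 ≤ ‖w‖ := norm_nonneg _
    refine max_le ?_ ?_
    · rw [hψ]
      simp only
      rw [dist_eq_norm, ← map_sub]
      refine (V.norm_orthogonalProjectionOnto_apply_le _).trans ?_
      have h1 : s⁻¹ • z - p - (s'⁻¹ • z' - p) = s⁻¹ • (z - z') + (s⁻¹ - s'⁻¹) • z' := by module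
      rw [← hs, ← hs', h1]
      refine (norm_add_le _ _).trans ?_
      rw [norm_smul, norm_smul, Real.norm_eq_abs, Real.norm_eq_abs]
      have h2 : |s⁻¹| ≤ 2 := by
        rw [abs_of_pos (by positivity)]
        rw [inv_le_comm₀ hs0 (by norm_num)]
        linarith [hz.2.1]
      have h3 : |s⁻¹ - s'⁻¹| ≤ 4 * (‖w‖ * ‖z - z'‖) := by
        have h4 : s⁻¹ - s'⁻¹ = (s' - s) * (s⁻¹ * s'⁻¹) := by field_simp
        rw [h4, abs_mul, abs_sub_comm]
        have h5 : |s⁻¹ * s'⁻¹| ≤ 4 := by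
          rw [abs_of_pos (by positivity)]
          have h6 : s⁻¹ ≤ 2 := by rw [inv_le_comm₀ hs0 (by norm_num)]; linarith [hz.2.1]
          have h7 : s'⁻¹ ≤ 2 := by rw [inv_le_comm₀ hs0' (by norm_num)]; linarith [hz'.2.1]
          have h8 : 0 < s'⁻¹ := by positivity
          nlinarith
        calc |s - s'| * |s⁻¹ * s'⁻¹| ≤ (‖w‖ * ‖z - z'‖) * 4 := by gcongr
          _ = _ := by ring
      calc |s⁻¹| * ‖z - z'‖ + |s⁻¹ - s'⁻¹| * ‖z'‖
          ≤ 2 * ‖z - z'‖ + 4 * (‖w‖ * ‖z - z'‖) * (R + ‖p‖) := by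
            gcongr
            exact hz'.2.2
        _ ≤ (2 + 4 * (R + ‖p‖) * ‖w‖ + ‖w‖) * ‖z - z'‖ := by nlinarith [mul_nonneg hw hd]
    · rw [hψ]
      simp only
      rw [← hs, ← hs', Real.dist_eq]
      refine hss.trans ?_
      have : 0 ≤ (2 + 4 * (R + ‖p‖) * ‖w‖) * ‖z - z'‖ := by positivity
      nlinarith
  refine (dimH_mono hsub).trans (hlip.dimH_image_le.trans (dimH_mono inter_subset_left))

theorem cone_dim (V : Submodule ℝ E) (w p : E) (hV : ∀ y : V, ⟪w, (y : E)⟫_ℝ = 0)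
    (hp : ⟪w, p⟫_ℝ = 1) (L : Set V) (hne : L.Nonempty) (C : Set E)
    (hC : ∀ y ∈ L, ∀ t ∈ Icc (1 / 2 : ℝ) 1, t • ((y : E) + p) ∈ C) :
    dimH L + 1 ≤ dimH C := by
  obtain ⟨x, hx⟩ := hne
  have hU : L = ⋃ k : ℕ, L ∩ closedBall x k := by
    rw [← inter_iUnion, iUnion_closedBall_nat, inter_univ]
  have h1 : ∀ k : ℕ, dimH (L ∩ closedBall x k) + 1 ≤ dimH C := by
    intro k
    refine cone_dim_bdd V w p hV hp (L ∩ closedBall x k)
      ⟨x, hx, mem_closedBall_self (Nat.cast_nonneg k)⟩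
      (‖x‖ + k) ?_ C fun y hy => hC y hy.1
    intro y hy
    have := hy.2
    rw [mem_closedBall, dist_eq_norm] at this
    calc ‖y‖ = ‖x + (y - x)‖ := by congr 1; abel
      _ ≤ ‖x‖ + ‖y - x‖ := norm_add_le _ _
      _ ≤ _ := by linarith
  rw [hU, dimH_iUnion]
  rw [ENNReal.iSup_add]
  exact iSup_le h1

end Pool.Agent.V7H39.KS
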