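import Mathlib

set_option autoImplicit false

open Set Metric
open scoped ENNReal

namespace Pool.Agent.V7H39.KS

/-- A Kakeya set of `ℝ^n`: a compact set that contains a unit segment in every direction. -/
def IsKakeya {n : ℕ} (K : Set (EuclideanSpace ℝ (Fin n))) : Prop :=
  IsCompact K ∧ ∀ e : EuclideanSpace ℝ (Fin n), ‖e‖ = 1 →
    ∃ a : EuclideanSpace ℝ (Fin n), ∀ t ∈ Icc (0 : ℝ) 1, a + t • e ∈ K

/-- The infimum of the Hausdorff dimensions of the Kakeya sets of `ℝ^m`. -/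
noncomputable def kakeyaDim (m : ℕ) : ℝ≥0∞ :=
  ⨅ (K : Set (EuclideanSpace ℝ (Fin m))) (_ : IsKakeya K), dimH K

end Pool.Agent.V7H39.KS
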