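import Pool.Agent.V7H39.KS.Prod

set_option autoImplicit false

open MeasureTheory MeasureTheory.Measure Set Metric Filter Module
open scoped ENNReal NNReal

namespace Pool.Agent.V7H39.KS

theorem exists_good_measure (U : Type*) [NormedAddCommGroup U] [InnerProductSpace ℝ U]
    [FiniteDimensional ℝ U] [MeasurableSpace U] [BorelSpace U] :
    ∃ μ : Measure U, (∀ S : Set U, μ S ≤ ediam S ^ ((finrank ℝ U : ℕ) : ℝ)) ∧
      ∀ (x : U) (r : ℝ), 0 < r → μ (closedBall x r) ≠ 0 := by
  set c : ℝ≥0∞ := (volume : Measure U) (ball 0 1) with hc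
  have hc0 : c ≠ 0 := (measure_ball_pos _ _ one_pos).ne'
  have hct : c ≠ ∞ := measure_ball_lt_top.ne
  have hball : ∀ (x : U) (r : ℝ), 0 ≤ r →
      (c⁻¹ • (volume : Measure U)) (closedBall x r) = ENNReal.ofReal (r ^ finrank ℝ U) := by
    intro x r hr
    rw [Measure.smul_apply, addHaar_closedBall _ _ hr, smul_eq_mul, ← hc, mul_comm,
      mul_assoc, ENNReal.mul_inv_cancel hc0 hct, mul_one]
  refine ⟨c⁻¹ • volume, ?_, ?_⟩
  · intro S
    rcases S.eq_empty_or_nonempty with rfl | ⟨x, hx⟩
    · simp
    by_cases hd : ediam S = ∞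
    · rcases Nat.eq_zero_or_pos (finrank ℝ U) with h0 | h0
      · have hsub : Subsingleton U := finrank_zero_iff.1 h0
        have : ediam S = 0 := ediam_subsingleton (subsingleton_of_subsingleton)
        rw [this] at hd
        exact absurd hd (by simp)
      · rw [hd, ENNReal.top_rpow_of_pos (by exact_mod_cast h0)]
        exact le_top
    · have hsub : S ⊆ closedBall x (ediam S).toReal := by
        intro y hy
        rw [mem_closedBall, dist_edist]
        exact ENNReal.toReal_mono hd (edist_le_ediam_of_mem hy hx)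
      refine (measure_mono hsub).trans ?_
      rw [hball _ _ ENNReal.toReal_nonneg, ENNReal.ofReal_pow ENNReal.toReal_nonneg,
        ENNReal.ofReal_toReal hd, ENNReal.rpow_natCast]
  · intro x r hr
    rw [hball x r hr.le]
    have : 0 < r ^ finrank ℝ U := by positivity
    simpa using this

theorem dimH_prod_ball {X : Type*} [MetricSpace X] (U : Type*) [NormedAddCommGroup U]
    [InnerProductSpace ℝ U] [FiniteDimensional ℝ U] (A : Set X) (x : U) (r : ℝ) (hr : 0 < r)
    (hA : A.Nonempty) : dimH A + finrank ℝ U ≤ dimH (A ×ˢ closedBall x r) := by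
  borelize U
  obtain ⟨μ, h1, h2⟩ := exists_good_measure U
  exact dimH_prod_lower μ (finrank ℝ U) h1 A _ measurableSet_closedBall (h2 x r hr) hA

end Pool.Agent.V7H39.KS
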