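import Pool.Agent.V7H39.KS.Haar

set_option autoImplicit false

open MeasureTheory MeasureTheory.Measure Set Metric Filter Module
open scoped ENNReal NNReal InnerProductSpace

namespace Pool.Agent.V7H39.KS

variable {E : Type*} [NormedAddCommGroup E] [InnerProductSpace ℝ E] [FiniteDimensional ℝ E]

/-- the rotated point -/
noncomputable def rotPt (V : Submodule ℝ E) (f x : V) (y : Vᗮ) : E :=
  ((x + (⟪f, x⟫_ℝ * √(1 - ‖y‖ ^ 2) - ⟪f, x⟫_ℝ) • f : V) : E) + ((⟪f, x⟫_ℝ • y : Vᗮ) : E)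

/-- the distance to the orthogonal complement of `f` in `V` -/
noncomputable def radius (V : Submodule ℝ E) (f : V) (z : E) : ℝ :=
  ‖((⟪f, V.orthogonalProjectionOnto z⟫_ℝ • f : V) : E) + (Vᗮ.orthogonalProjectionOnto z : E)‖

/-- the inverse map -/
noncomputable def unrot (V : Submodule ℝ E) (f : V) (z : E) : V × Vᗮ :=
  (V.orthogonalProjectionOnto z + (radius V f z - ⟪f, V.orthogonalProjectionOnto z⟫_ℝ) • f,
    (radius V f z)⁻¹ • Vᗮ.orthogonalProjectionOnto z)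

theorem proj_add (V : Submodule ℝ E) (p : V) (q : Vᗮ) :
    V.orthogonalProjectionOnto ((p : E) + (q : E)) = p ∧
      Vᗮ.orthogonalProjectionOnto ((p : E) + (q : E)) = q := by
  constructor
  · rw [map_add, Submodule.orthogonalProjectionOnto_mem_subspace_eq_self,
      Submodule.orthogonalProjectionOnto_apply_of_mem_orthogonal q.2, add_zero]
  · rw [map_add, Submodule.orthogonalProjectionOnto_mem_subspace_eq_self,
      Submodule.orthogonalProjectionOnto_apply_of_mem_orthogonal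
        (Submodule.le_orthogonal_orthogonal V p.2), zero_add]

theorem norm_sq_add (V : Submodule ℝ E) (p : V) (q : Vᗮ) :
    ‖(p : E) + (q : E)‖ ^ 2 = ‖p‖ ^ 2 + ‖q‖ ^ 2 := by
  have h : ⟪(p : E), (q : E)⟫_ℝ = 0 := Submodule.inner_right_of_mem_orthogonal p.2 q.2
  rw [@norm_add_sq_real, h]
  simp

theorem radius_sq (V : Submodule ℝ E) (f : V) (hf : ‖f‖ = 1) (p : V) (q : Vᗮ) :
    radius V f ((p : E) + (q : E)) ^ 2 = ⟪f, p⟫_ℝ ^ 2 + ‖q‖ ^ 2 := by
  rw [radius, (proj_add V p q).1, (proj_add V p q).2, norm_sq_add, norm_smul, hf, mul_one,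
    Real.norm_eq_abs, sq_abs]

theorem unrot_rotPt (V : Submodule ℝ E) (f : V) (hf : ‖f‖ = 1) (x : V) (y : Vᗮ)
    (hx : 0 < ⟪f, x⟫_ℝ) (hy : ‖y‖ ≤ 1) :
    radius V f (rotPt V f x y) = ⟪f, x⟫_ℝ ∧ unrot V f (rotPt V f x y) = (x, y) := by
  have hin : ⟪f, x + (⟪f, x⟫_ℝ * √(1 - ‖y‖ ^ 2) - ⟪f, x⟫_ℝ) • f⟫_ℝ =
      ⟪f, x⟫_ℝ * √(1 - ‖y‖ ^ 2) := by
    rw [inner_add_right, inner_smul_right, real_inner_self_eq_norm_sq, hf]
    ring
  have hr : radius V f (rotPt V f x y) = ⟪f, x⟫_ℝ := by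
    have h1 := radius_sq V f hf (x + (⟪f, x⟫_ℝ * √(1 - ‖y‖ ^ 2) - ⟪f, x⟫_ℝ) • f) (⟪f, x⟫_ℝ • y)
    rw [hin, norm_smul, mul_pow, mul_pow, Real.sq_sqrt (by nlinarith [norm_nonneg y]),
      Real.norm_eq_abs, sq_abs] at h1
    have h2 : radius V f (rotPt V f x y) ^ 2 = ⟪f, x⟫_ℝ ^ 2 := by
      rw [rotPt, h1]; ring
    have h3 : 0 ≤ radius V f (rotPt V f x y) := norm_nonneg _
    nlinarith [abs_eq_abs.2 (sq_eq_sq_iff_eq_or_eq_neg.1 h2), abs_of_pos hx, abs_of_nonneg h3]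
  refine ⟨hr, ?_⟩
  have hp := (proj_add V (x + (⟪f, x⟫_ℝ * √(1 - ‖y‖ ^ 2) - ⟪f, x⟫_ℝ) • f) (⟪f, x⟫_ℝ • y))
  rw [unrot, hr]
  rw [rotPt, hp.1, hp.2, hin]
  refine Prod.ext ?_ ?_
  · simp only
    rw [add_assoc, ← add_smul]
    simp
  · simp only
    rw [smul_smul, inv_mul_cancel₀ hx.ne', one_smul]

theorem radius_lip (V : Submodule ℝ E) (f : V) (hf : ‖f‖ = 1) (z z' : E) :
    |radius V f z - radius V f z'| ≤ 2 * ‖z - z'‖ := by
  refine (abs_norm_sub_norm_le _ _).trans ?_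
  have h1 : ((⟪f, V.orthogonalProjectionOnto z⟫_ℝ • f : V) : E) + (Vᗮ.orthogonalProjectionOnto z : E) -
      (((⟪f, V.orthogonalProjectionOnto z'⟫_ℝ • f : V) : E) + (Vᗮ.orthogonalProjectionOnto z' : E)) =
      ((⟪f, V.orthogonalProjectionOnto (z - z')⟫_ℝ • f : V) : E) +
        (Vᗮ.orthogonalProjectionOnto (z - z') : E) := by
    rw [map_sub, map_sub, inner_sub_right, sub_smul]
    push_cast
    abel
  rw [h1]
  refine (norm_add_le _ _).trans ?_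
  have h2 : ‖((⟪f, V.orthogonalProjectionOnto (z - z')⟫_ℝ • f : V) : E)‖ ≤ ‖z - z'‖ := by
    rw [← Submodule.coe_norm, norm_smul, hf, mul_one, Real.norm_eq_abs]
    refine (abs_real_inner_le_norm _ _).trans ?_
    rw [hf, one_mul]
    exact V.norm_orthogonalProjectionOnto_apply_le _
  have h3 : ‖(Vᗮ.orthogonalProjectionOnto (z - z') : E)‖ ≤ ‖z - z'‖ :=
    Vᗮ.norm_orthogonalProjectionOnto_apply_le _
  linarith

theorem norm_q_le_radius (V : Submodule ℝ E) (f : V) (hf : ‖f‖ = 1) (z : E) :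
    ‖Vᗮ.orthogonalProjectionOnto z‖ ≤ radius V f z := by
  have h := norm_sq_add V (⟪f, V.orthogonalProjectionOnto z⟫_ℝ • f) (Vᗮ.orthogonalProjectionOnto z)
  have h3 : 0 ≤ radius V f z := norm_nonneg _
  have h4 : ‖Vᗮ.orthogonalProjectionOnto z‖ ^ 2 ≤ radius V f z ^ 2 := by
    rw [radius, h]
    nlinarith [sq_nonneg ‖⟪f, V.orthogonalProjectionOnto z⟫_ℝ • f‖]
  exact (sq_le_sq₀ (norm_nonneg _) h3).1 h4

theorem unrot_lip (V : Submodule ℝ E) (f : V) (hf : ‖f‖ = 1) (ε : ℝ) (hε : 0 < ε) :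
    LipschitzOnWith (Real.toNNReal (4 + 3 / ε)) (unrot V f) {z | ε ≤ radius V f z} := by
  refine LipschitzOnWith.of_dist_le_mul fun z hz z' hz' => ?_
  simp only [mem_setOf_eq] at hz hz'
  have hr := radius_lip V f hf z z'
  have hq' := norm_q_le_radius V f hf z'
  set r := radius V f z with hrd
  set r' := radius V f z' with hrd'
  have hr0 : 0 < r := hε.trans_le hz
  have hr0' : 0 < r' := hε.trans_le hz'
  have hC : ((Real.toNNReal (4 + 3 / ε) : ℝ≥0) : ℝ) = 4 + 3 / ε :=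
    Real.coe_toNNReal _ (by positivity)
  rw [hC, dist_eq_norm z z', Prod.dist_eq]
  set p := V.orthogonalProjectionOnto z with hp
  set p' := V.orthogonalProjectionOnto z' with hp'
  set q := Vᗮ.orthogonalProjectionOnto z with hqd
  set q' := Vᗮ.orthogonalProjectionOnto z' with hqd'
  have hpp : ‖p - p'‖ ≤ ‖z - z'‖ := by
    rw [hp, hp', ← map_sub]
    exact V.norm_orthogonalProjectionOnto_apply_le _
  have hqq : ‖q - q'‖ ≤ ‖z - z'‖ := by
    rw [hqd, hqd', ← map_sub]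
    exact Vᗮ.norm_orthogonalProjectionOnto_apply_le _
  have hd : 0 ≤ ‖z - z'‖ := norm_nonneg _
  refine max_le ?_ ?_
  · simp only [unrot]
    rw [dist_eq_norm]
    have h1 : p + (r - ⟪f, p⟫_ℝ) • f - (p' + (r' - ⟪f, p'⟫_ℝ) • f) =
        (p - p') + ((r - r') - ⟪f, p - p'⟫_ℝ) • f := by
      rw [inner_sub_right]
      module
    rw [h1]
    refine (norm_add_le _ _).trans ?_
    rw [norm_smul, hf, mul_one, Real.norm_eq_abs]
    have h2 : |⟪f, p - p'⟫_ℝ| ≤ ‖z - z'‖ := by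
      refine (abs_real_inner_le_norm _ _).trans ?_
      rw [hf, one_mul]
      exact hpp
    have h3 : |r - r' - ⟪f, p - p'⟫_ℝ| ≤ 3 * ‖z - z'‖ := by
      refine (abs_sub _ _).trans ?_
      linarith
    have h4 : 0 ≤ 3 / ε * ‖z - z'‖ := by positivity
    nlinarith
  · simp only [unrot]
    rw [dist_eq_norm]
    have h1 : r⁻¹ • q - r'⁻¹ • q' = r⁻¹ • (q - q') + (r⁻¹ - r'⁻¹) • q' := by module
    rw [h1]
    refine (norm_add_le _ _).trans ?_
    rw [norm_smul, norm_smul, Real.norm_eq_abs, Real.norm_eq_abs]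
    have h2 : |r⁻¹| ≤ 1 / ε := by
      rw [abs_of_pos (by positivity), inv_eq_one_div]
      gcongr
    have h3 : |r⁻¹ - r'⁻¹| * ‖q'‖ ≤ 2 / ε * ‖z - z'‖ := by
      have h4 : r⁻¹ - r'⁻¹ = (r' - r) / (r * r') := by field_simp
      rw [h4, abs_div, abs_of_pos (mul_pos hr0 hr0')]
      have h5 : |r' - r| ≤ 2 * ‖z - z'‖ := by rwa [abs_sub_comm]
      calc |r' - r| / (r * r') * ‖q'‖ ≤ |r' - r| / (r * r') * r' := by gcongr
        _ = |r' - r| / r := by field_simp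
        _ ≤ (2 * ‖z - z'‖) / ε := by gcongr
        _ = 2 / ε * ‖z - z'‖ := by ring
    calc |r⁻¹| * ‖q - q'‖ + |r⁻¹ - r'⁻¹| * ‖q'‖ ≤ 1 / ε * ‖z - z'‖ + 2 / ε * ‖z - z'‖ := by
          gcongr
      _ = 3 / ε * ‖z - z'‖ := by ring
      _ ≤ (4 + 3 / ε) * ‖z - z'‖ := by nlinarith

/-- The dimension of a rotated set. -/
theorem lift_dim (V : Submodule ℝ E) (f : V) (hf : ‖f‖ = 1) (K : Set E) (A : Set V)
    (hne : A.Nonempty) (ε : ℝ) (hε : 0 < ε) (hA : ∀ x ∈ A, ε ≤ ⟪f, x⟫_ℝ)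
    (hK : ∀ x ∈ A, ∀ y : Vᗮ, ‖y‖ ≤ 1 → rotPt V f x y ∈ K) :
    dimH A + finrank ℝ Vᗮ ≤ dimH K := by
  refine (dimH_prod_ball Vᗮ A 0 1 one_pos hne).trans ?_
  have h1 : A ×ˢ closedBall (0 : Vᗮ) 1 ⊆ unrot V f '' (K ∩ {z | ε ≤ radius V f z}) := by
    rintro ⟨x, y⟩ ⟨hx, hy⟩
    simp only [mem_closedBall, dist_zero_right] at hx hy
    have h2 := unrot_rotPt V f hf x y (hε.trans_le (hA x hx)) hy
    refine ⟨rotPt V f x y, ⟨hK x hx y hy, ?_⟩, h2.2⟩
    simp only [mem_setOf_eq, h2.1]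
    exact hA x hx
  refine (dimH_mono h1).trans ?_
  refine (((unrot_lip V f hf ε hε).mono inter_subset_right).dimH_image_le).trans ?_
  exact dimH_mono inter_subset_left

end Pool.Agent.V7H39.KS
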