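import Mathlib

set_option autoImplicit false

open MeasureTheory MeasureTheory.Measure Set Metric Filter
open scoped ENNReal NNReal

namespace Pool.Agent.V7H39.KS

/-- Lower bound for the Hausdorff measure of a product. -/
theorem hausdorff_prod_lower {X Y : Type*} [MetricSpace X] [MeasurableSpace X] [BorelSpace X]
    [MetricSpace Y] [MeasurableSpace Y] [BorelSpace Y] [SecondCountableTopology Y]
    (μ : Measure Y) (j : ℝ) (hj : 0 ≤ j) (hμ : ∀ S : Set Y, μ S ≤ ediam S ^ j)
    (s : ℝ) (hs : 0 ≤ s) (A : Set X) (B : Set Y) (hB : MeasurableSet B) :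
    μH[s] A * μ B ≤ μH[s + j] (A ×ˢ B) := by
  rw [hausdorffMeasure_apply, hausdorffMeasure_apply, ENNReal.iSup_mul]
  refine iSup_mono fun r => ?_
  rw [ENNReal.iSup_mul]
  refine iSup_mono fun hr => ?_
  refine le_iInf fun t => le_iInf fun hcov => le_iInf fun hdiam => ?_
  set a : ℝ≥0∞ := ⨅ (t : ℕ → Set X) (_ : A ⊆ ⋃ n, t n) (_ : ∀ n, ediam (t n) ≤ r),
    ∑' n, ⨆ _ : (t n).Nonempty, ediam (t n) ^ s with ha
  set g : ℕ → Y → ℝ≥0∞ := fun n =>
    indicator (closure (Prod.snd '' t n)) (fun _ => ediam (t n) ^ s) with hg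
  have h1 : ∀ y ∈ B, a ≤ ∑' n, g n y := by
    intro y hy
    refine le_trans (iInf_le _ (fun n => {x | (x, y) ∈ t n})) ?_
    refine le_trans (iInf_le _ ?_) ?_
    · intro x hx
      have := hcov (mk_mem_prod hx hy)
      rw [mem_iUnion] at this ⊢
      exact this
    have hd : ∀ n, ediam {x | (x, y) ∈ t n} ≤ ediam (t n) := by
      intro n
      refine ediam_le fun x hx x' hx' => ?_
      have := edist_le_ediam_of_mem (s := t n) (x := (x, y)) (y := (x', y)) hx hx'
      refine le_trans ?_ this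
      rw [Prod.edist_eq]
      exact le_max_left _ _
    refine le_trans (iInf_le _ (fun n => (hd n).trans (hdiam n))) ?_
    refine ENNReal.tsum_le_tsum fun n => ?_
    refine iSup_le fun hne => ?_
    obtain ⟨x, hx⟩ := hne
    have hmem : y ∈ closure (Prod.snd '' t n) := subset_closure ⟨(x, y), hx, rfl⟩
    rw [hg]
    simp only [indicator_of_mem hmem]
    exact ENNReal.rpow_le_rpow (hd n) hs
  have hgm : ∀ n, Measurable (g n) := fun n => measurable_const.indicator isClosed_closure.measurableSet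
  calc a * μ B = ∫⁻ _ in B, a ∂μ := by rw [setLIntegral_const]
    _ ≤ ∫⁻ y in B, ∑' n, g n y ∂μ := setLIntegral_mono' hB h1
    _ ≤ ∫⁻ y, ∑' n, g n y ∂μ := setLIntegral_le_lintegral _ _
    _ = ∑' n, ∫⁻ y, g n y ∂μ := lintegral_tsum fun n => (hgm n).aemeasurable
    _ ≤ ∑' n, ⨆ _ : (t n).Nonempty, ediam (t n) ^ (s + j) := by
      refine ENNReal.tsum_le_tsum fun n => ?_
      rw [hg, lintegral_indicator isClosed_closure.measurableSet, setLIntegral_const]
      by_cases hne : (t n).Nonempty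
      · simp only [hne, iSup_pos]
        rw [ENNReal.rpow_add_of_nonneg _ _ hs hj]
        gcongr
        refine (hμ _).trans ?_
        refine ENNReal.rpow_le_rpow ?_ hj
        rw [ediam_closure]
        refine ediam_le ?_
        rintro _ ⟨x, hx, rfl⟩ _ ⟨x', hx', rfl⟩
        refine le_trans ?_ (edist_le_ediam_of_mem hx hx')
        rw [Prod.edist_eq]
        exact le_max_right _ _
      · rw [not_nonempty_iff_eq_empty] at hne
        simp [hne]

/-- Lower bound for the Hausdorff dimension of a product. -/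
theorem dimH_prod_lower {X Y : Type*} [MetricSpace X]
    [MetricSpace Y] [MeasurableSpace Y] [BorelSpace Y] [SecondCountableTopology Y]
    (μ : Measure Y) (j : ℕ) (hμ : ∀ S : Set Y, μ S ≤ ediam S ^ (j : ℝ))
    (A : Set X) (B : Set Y) (hB : MeasurableSet B) (hB0 : μ B ≠ 0)
    (hA : A.Nonempty) : dimH A + j ≤ dimH (A ×ˢ B) := by
  borelize X
  have hmain : ∀ s : ℝ≥0, (s : ℝ≥0∞) < dimH A → (s : ℝ≥0∞) + j ≤ dimH (A ×ˢ B) := by
    intro s hs
    have h1 : μH[(s : ℝ)] A = ∞ := hausdorffMeasure_of_lt_dimH hs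
    have h2 := hausdorff_prod_lower μ j (Nat.cast_nonneg j) hμ s s.2 A B hB
    rw [h1, ENNReal.top_mul hB0, top_le_iff] at h2
    have h3 : ((s + j : ℝ≥0) : ℝ) = (s : ℝ) + j := by push_cast; rfl
    have h4 := le_dimH_of_hausdorffMeasure_eq_top (d := s + (j : ℝ≥0)) (s := A ×ˢ B) (by rw [h3]; exact h2)
    refine le_trans (le_of_eq ?_) h4
    push_cast
    rfl
  have hj0 : (j : ℝ≥0∞) ≤ dimH (A ×ˢ B) := by
    obtain ⟨x, hx⟩ := hA
    have h2 := hausdorff_prod_lower μ j (Nat.cast_nonneg j) hμ 0 le_rfl {x} B hB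
    rw [hausdorffMeasure_zero_singleton, one_mul, zero_add] at h2
    have h3 : μH[((j : ℝ≥0) : ℝ)] (({x} : Set X) ×ˢ B) ≠ 0 := by
      intro h4
      rw [NNReal.coe_natCast] at h4
      rw [h4] at h2
      exact hB0 (nonpos_iff_eq_zero.1 h2)
    have h4 := le_dimH_of_hausdorffMeasure_ne_zero h3
    refine le_trans (by simp) (h4.trans (dimH_mono (prod_mono_left (singleton_subset_iff.2 hx))))
  by_contra hcon
  push Not at hcon
  have h5 : dimH (A ×ˢ B) - j < dimH A := ENNReal.sub_lt_of_lt_add hj0 hcon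
  obtain ⟨s, h6, h7⟩ := ENNReal.lt_iff_exists_nnreal_btwn.1 h5
  have h8 := hmain s h7
  have h9 : dimH (A ×ˢ B) < (s : ℝ≥0∞) + j := by
    rwa [ENNReal.sub_lt_iff_lt_right (by simp) hj0] at h6
  exact absurd h8 (not_le.2 h9)

end Pool.Agent.V7H39.KS
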