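import Pool.Agent.V7H39.KS.Star
import Pool.Agent.V7H39.KS.Lift

set_option autoImplicit false

open MeasureTheory MeasureTheory.Measure Set Metric Filter Module
open scoped ENNReal NNReal InnerProductSpace Topology

namespace Pool.Agent.V7H39.KS

variable {E : Type*} [NormedAddCommGroup E] [InnerProductSpace ℝ E] [FiniteDimensional ℝ E]

theorem rot_pt (W : Submodule ℝ E) (f g : E) (hfn : ‖f‖ = 1) (hgn : ‖g‖ = 1) (hfW : f ∈ Wᗮ)
    (hgW : g ∈ Wᗮ) (hfg : ⟪f, g⟫_ℝ = 0) (e we : E) (hwe : we ∈ W) (α β : ℝ)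
    (he : e = we + (α • f + β • g)) (hα : α ≠ 0) (a : E) :
    ∃ a' ∈ W ⊔ Submodule.span ℝ {f, g}, a - a' ∈ Wᗮ ∧ ‖a'‖ = ‖a‖ ∧ ⟪a', e⟫_ℝ = ⟪a, e⟫_ℝ := by
  obtain ⟨wa, hwa, cc, hcc, hacc⟩ : ∃ wa ∈ W, ∃ cc ∈ Wᗮ, a = wa + cc :=
    ⟨_, W.starProjection_apply_mem a, _, W.sub_starProjection_mem_orthogonal a, by abel⟩
  have hgf : ⟪g, f⟫_ℝ = 0 := by rw [real_inner_comm]; exact hfg
  have hff : ⟪f, f⟫_ℝ = 1 := by rw [real_inner_self_eq_norm_sq, hfn]; norm_num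
  have hgg : ⟪g, g⟫_ℝ = 1 := by rw [real_inner_self_eq_norm_sq, hgn]; norm_num
  set s : ℝ := α ^ 2 + β ^ 2 with hs
  have hs0 : 0 < s := by positivity
  obtain ⟨ep, hep⟩ : ∃ ep : E, ep = α • f + β • g := ⟨_, rfl⟩
  obtain ⟨up, hup⟩ : ∃ up : E, up = α • g - β • f := ⟨_, rfl⟩
  have hepW : ep ∈ Wᗮ := hep ▸ Submodule.add_mem _ (Submodule.smul_mem _ _ hfW)
    (Submodule.smul_mem _ _ hgW)
  have hupW : up ∈ Wᗮ := hup ▸ Submodule.sub_mem _ (Submodule.smul_mem _ _ hgW)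
    (Submodule.smul_mem _ _ hfW)
  have h1 : ⟪ep, ep⟫_ℝ = s := by
    rw [hep]
    simp only [inner_add_left, inner_add_right, real_inner_smul_left, real_inner_smul_right, hfg,
      hgf, hff, hgg, hs]
    ring
  have h2 : ⟪up, up⟫_ℝ = s := by
    rw [hup]
    simp only [inner_sub_left, inner_sub_right, real_inner_smul_left, real_inner_smul_right, hfg,
      hgf, hff, hgg, hs]
    ring
  have h3 : ⟪up, ep⟫_ℝ = 0 := by
    rw [hup, hep]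
    simp only [inner_sub_left, inner_add_right, real_inner_smul_left, real_inner_smul_right, hfg,
      hgf, hff, hgg]
    ring
  have h3' : ⟪ep, up⟫_ℝ = 0 := by rw [real_inner_comm]; exact h3
  have hCS : ⟪cc, ep⟫_ℝ ^ 2 ≤ ‖cc‖ ^ 2 * s := by
    have h4 := abs_real_inner_le_norm cc ep
    have h5 : ‖ep‖ ^ 2 = s := by rw [← real_inner_self_eq_norm_sq, h1]
    calc ⟪cc, ep⟫_ℝ ^ 2 = |⟪cc, ep⟫_ℝ| ^ 2 := (sq_abs _).symm
      _ ≤ (‖cc‖ * ‖ep‖) ^ 2 := by gcongr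
      _ = _ := by rw [mul_pow, h5]
  set lam : ℝ := ⟪cc, ep⟫_ℝ / s with hlam
  have hlams : lam * s = ⟪cc, ep⟫_ℝ := div_mul_cancel₀ _ hs0.ne'
  have hnn : 0 ≤ (‖cc‖ ^ 2 - lam ^ 2 * s) / s := by
    apply div_nonneg _ hs0.le
    have : lam ^ 2 * s = ⟪cc, ep⟫_ℝ ^ 2 / s := by
      rw [hlam]; field_simp
    rw [this, sub_nonneg, div_le_iff₀ hs0]
    exact hCS
  set ρ : ℝ := √((‖cc‖ ^ 2 - lam ^ 2 * s) / s) with hρ
  have hρs : ρ ^ 2 * s = ‖cc‖ ^ 2 - lam ^ 2 * s := by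
    rw [hρ, Real.sq_sqrt hnn]
    field_simp
  obtain ⟨z, hz⟩ : ∃ z : E, z = lam • ep + ρ • up := ⟨_, rfl⟩
  have hzW : z ∈ Wᗮ := hz ▸ Submodule.add_mem _ (Submodule.smul_mem _ _ hepW)
    (Submodule.smul_mem _ _ hupW)
  have hzz : ‖z‖ ^ 2 = ‖cc‖ ^ 2 := by
    rw [← real_inner_self_eq_norm_sq, hz]
    simp only [inner_add_left, inner_add_right, real_inner_smul_left, real_inner_smul_right, h1,
      h2, h3, h3']
    linear_combination hρs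
  have hzep : ⟪z, ep⟫_ℝ = ⟪cc, ep⟫_ℝ := by
    rw [hz]
    simp only [inner_add_left, real_inner_smul_left, h1, h3]
    linear_combination hlams
  have hzV : z ∈ Submodule.span ℝ {f, g} := by
    rw [Submodule.mem_span_pair]
    refine ⟨lam * α - ρ * β, lam * β + ρ * α, ?_⟩
    rw [hz, hep, hup]
    module
  refine ⟨wa + z, Submodule.add_mem_sup hwa hzV, ?_, ?_, ?_⟩
  · have h4 : a - (wa + z) = cc - z := by rw [hacc]; abel
    rw [h4]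
    exact Submodule.sub_mem _ hcc hzW
  · have h4 : ⟪wa, z⟫_ℝ = 0 := Submodule.inner_right_of_mem_orthogonal hwa hzW
    have h5 : ⟪wa, cc⟫_ℝ = 0 := Submodule.inner_right_of_mem_orthogonal hwa hcc
    have h6 : ‖wa + z‖ ^ 2 = ‖a‖ ^ 2 := by
      rw [hacc, @norm_add_sq_real, @norm_add_sq_real, h4, h5, hzz]
    exact (sq_eq_sq₀ (norm_nonneg _) (norm_nonneg _)).1 h6
  · have h4 : ⟪wa, ep⟫_ℝ = 0 := Submodule.inner_right_of_mem_orthogonal hwa hepW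
    have h5 : ⟪z, we⟫_ℝ = 0 := Submodule.inner_left_of_mem_orthogonal hwe hzW
    have h6 : ⟪cc, we⟫_ℝ = 0 := Submodule.inner_left_of_mem_orthogonal hwe hcc
    rw [he, ← hep, hacc]
    simp only [inner_add_left, inner_add_right, h4, h5, h6, hzep]

theorem rot_seg (W : Submodule ℝ E) (f g : E) (hfn : ‖f‖ = 1) (hgn : ‖g‖ = 1) (hfW : f ∈ Wᗮ)
    (hgW : g ∈ Wᗮ) (hfg : ⟪f, g⟫_ℝ = 0) (e we : E) (hwe : we ∈ W) (α β : ℝ)
    (he : e = we + (α • f + β • g)) (hα : α ≠ 0) (K : Set E)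
    (hsym : ∀ x ∈ K, ∀ y, x - y ∈ Wᗮ → ‖x‖ = ‖y‖ → y ∈ K) (a : E) :
    ∃ a' ∈ W ⊔ Submodule.span ℝ {f, g}, ∀ t : ℝ, a + t • e ∈ K → a' + t • e ∈ K := by
  obtain ⟨a', h1, h2, h3, h4⟩ := rot_pt W f g hfn hgn hfW hgW hfg e we hwe α β he hα a
  refine ⟨a', h1, fun t ht => hsym _ ht _ ?_ ?_⟩
  · have : a + t • e - (a' + t • e) = a - a' := by abel
    rwa [this]
  · have h5 : ‖a + t • e‖ ^ 2 = ‖a' + t • e‖ ^ 2 := by
      rw [@norm_add_sq_real, @norm_add_sq_real, inner_smul_right, inner_smul_right, h3, h4]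
    exact (sq_eq_sq₀ (norm_nonneg _) (norm_nonneg _)).1 h5

end Pool.Agent.V7H39.KS
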