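import Pool.Agent.V7H39.KS.StarOne

set_option autoImplicit false

open MeasureTheory MeasureTheory.Measure Set Metric Filter Module
open scoped ENNReal NNReal InnerProductSpace Topology

namespace Pool.Agent.V7H39.KS

universe u

/-- a unit vector near `e0` outside of a proper subspace -/
theorem exists_unit_notMem {E : Type*} [NormedAddCommGroup E] [InnerProductSpace ℝ E]
    (S : Submodule ℝ E) (hS : S ≠ ⊤) {e0 : E} (he0 : ‖e0‖ = 1) {r : ℝ} (hr : 0 < r) :
    ∃ e2 : E, ‖e2‖ = 1 ∧ ‖e2 - e0‖ < r ∧ e2 ∉ S := by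
  by_cases h0 : e0 ∈ S
  swap
  · exact ⟨e0, he0, by simpa using hr, h0⟩
  obtain ⟨v, hv⟩ : ∃ v, v ∉ S := by
    by_contra hcon
    push Not at hcon
    exact hS (Submodule.eq_top_iff'.2 hcon)
  have h1 : ContinuousAt (fun t : ℝ => ‖‖e0 + t • v‖⁻¹ • (e0 + t • v) - e0‖) 0 := by
    refine ContinuousAt.norm (ContinuousAt.sub (ContinuousAt.smul ?_ (by fun_prop))
      continuousAt_const)
    refine ContinuousAt.inv₀ (by fun_prop) ?_
    rw [zero_smul, add_zero, he0]
    exact one_ne_zero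
  have h2 : ‖‖e0 + (0 : ℝ) • v‖⁻¹ • (e0 + (0 : ℝ) • v) - e0‖ < r := by
    rw [zero_smul, add_zero, he0, inv_one, one_smul, sub_self, norm_zero]
    exact hr
  have h3 : ∀ᶠ t in 𝓝 (0 : ℝ), ‖‖e0 + t • v‖⁻¹ • (e0 + t • v) - e0‖ < r :=
    h1.eventually (gt_mem_nhds h2)
  have h4 : ∃ᶠ t in 𝓝 (0 : ℝ), t ≠ 0 := by
    have h5 : (𝓝[≠] (0 : ℝ)).NeBot := inferInstance
    rw [Filter.frequently_iff_neBot]
    exact h5
  obtain ⟨t, ht0, ht⟩ := (h4.and_eventually h3).exists
  have hne : e0 + t • v ∉ S := by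
    intro h
    have h6 : t • v ∈ S := by
      have := S.sub_mem h h0
      rwa [add_sub_cancel_left] at this
    exact hv ((S.smul_mem_iff ht0).1 h6)
  have hn0 : ‖e0 + t • v‖ ≠ 0 := by
    rw [norm_ne_zero_iff]
    intro h
    exact hne (h ▸ S.zero_mem)
  refine ⟨‖e0 + t • v‖⁻¹ • (e0 + t • v), ?_, ht, ?_⟩
  · rw [norm_smul, norm_inv, norm_norm, inv_mul_cancel₀ hn0]
  · rw [S.smul_mem_iff (inv_ne_zero hn0)]
    exact hne

theorem exists_functional {E : Type*} [NormedAddCommGroup E] [InnerProductSpace ℝ E]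
    [FiniteDimensional ℝ E] {ι : Type*} (g : ι → E) (hg : LinearIndependent ℝ g) (t : ι → ℝ) :
    ∃ w : E, ∀ i, ⟪w, g i⟫_ℝ = t i := by
  obtain ⟨f, hf⟩ := LinearMap.exists_extend ((Basis.span hg).constr ℝ t)
  refine ⟨(InnerProductSpace.toDual ℝ E).symm (LinearMap.toContinuousLinearMap f), fun i => ?_⟩
  rw [InnerProductSpace.toDual_symm_apply]
  have h1 := congrArg (fun φ => φ (Basis.span hg i)) hf
  simp only [LinearMap.comp_apply, Basis.constr_basis, Submodule.subtype_apply] at h1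
  rw [Basis.span_apply] at h1
  exact h1

theorem star_step (m q : ℕ)
    (IH : ∀ (E : Type u) [NormedAddCommGroup E] [InnerProductSpace ℝ E] [FiniteDimensional ℝ E]
      (_ : finrank ℝ E = m + (q + 1)) (c : Fin (q + 1) → E) (_ : AffineIndependent ℝ c)
      (F C : Set E) (_ : IsCompact F) (_ : F ⊆ C)
      (_ : ∀ i, ∀ x ∈ C, ∀ t ∈ Ioc (0 : ℝ) 1, c i + t • (x - c i) ∈ C) (e0 : E) (_ : ‖e0‖ = 1)
      (r l : ℝ) (_ : 0 < r) (_ : 0 < l) (_ : SegNear F l e0 r), kakeyaDim m + (q + 1 : ℕ) ≤ dimH C)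
    (E : Type u) [NormedAddCommGroup E] [InnerProductSpace ℝ E] [FiniteDimensional ℝ E]
    (hm : finrank ℝ E = m + (q + 2)) (c : Fin (q + 2) → E) (hc : AffineIndependent ℝ c)
    (hc0 : c 0 = 0) (F C : Set E) (hF : IsCompact F) (hFC : F ⊆ C)
    (hC : ∀ i, ∀ x ∈ C, ∀ t ∈ Ioc (0 : ℝ) 1, c i + t • (x - c i) ∈ C) (e0 : E) (he0 : ‖e0‖ = 1)
    (r l : ℝ) (hr : 0 < r) (hl : 0 < l) (hseg : SegNear F l e0 r) :
    kakeyaDim m + (q + 2 : ℕ) ≤ dimH C := by
  have hC0 : ∀ x ∈ C, ∀ t ∈ Ioc (0 : ℝ) 1, t • x ∈ C := by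
    intro x hx t ht
    simpa [hc0] using hC 0 x hx t ht
  -- linear independence
  have hli : LinearIndependent ℝ (fun i : Fin (q + 1) => c i.succ) := by
    have h1 := (affineIndependent_iff_linearIndependent_vsub ℝ c 0).1 hc
    have h2 := h1.comp
      (fun i : Fin (q + 1) => (⟨i.succ, Fin.succ_ne_zero i⟩ : {x : Fin (q + 2) // x ≠ 0}))
      (fun i j hij => by simpa using hij)
    have h3 : ((fun i : {x : Fin (q + 2) // x ≠ 0} => (c i -ᵥ c 0 : E)) ∘
        fun i : Fin (q + 1) => (⟨i.succ, Fin.succ_ne_zero i⟩ : {x : Fin (q + 2) // x ≠ 0})) =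
        fun i : Fin (q + 1) => c i.succ := by
      funext i
      simp [hc0]
    rw [h3] at h2
    exact h2
  set S : Submodule ℝ E := Submodule.span ℝ (range fun i : Fin (q + 1) => c i.succ) with hS
  have hStop : S ≠ ⊤ := by
    intro h
    have h1 := finrank_range_le_card (R := ℝ) (fun i : Fin (q + 1) => c i.succ)
    rw [Set.finrank, ← hS, h, finrank_top, hm, Fintype.card_fin] at h1
    omega
  obtain ⟨e2, he2, he20, he2S⟩ := exists_unit_notMem S hStop he0 hr
  have hli2 : LinearIndependent ℝ (Fin.cons e2 (fun i : Fin (q + 1) => c i.succ) : Fin (q + 2) → E) :=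
    linearIndependent_finCons.2 ⟨hli, he2S⟩
  obtain ⟨w, hw⟩ := exists_functional _ hli2 (Fin.cons 0 (fun _ => 1))
  have hwe : ⟪w, e2⟫_ℝ = 0 := by simpa using hw 0
  have hwc : ∀ i : Fin (q + 1), ⟪w, c i.succ⟫_ℝ = 1 := fun i => by simpa using hw i.succ
  have hw0 : w ≠ 0 := by
    intro h0
    have := hwc 0
    rw [h0, inner_zero_left] at this
    norm_num at this
  have hwn : 0 < ‖w‖ := norm_pos_iff.2 hw0
  set p : E := (1 / 2 * (‖w‖ ^ 2)⁻¹) • w with hp
  have hwp : ⟪w, p⟫_ℝ = 1 / 2 := by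
    rw [hp, inner_smul_right, real_inner_self_eq_norm_sq]
    field_simp
  set V : Submodule ℝ E := (ℝ ∙ w)ᗮ with hV
  have hVw : ∀ y : V, ⟪w, (y : E)⟫_ℝ = 0 := fun y =>
    (Submodule.mem_orthogonal_singleton_iff_inner_right).1 y.2
  have hVm : ∀ y : E, ⟪w, y⟫_ℝ = 0 → y ∈ V := fun y hy =>
    (Submodule.mem_orthogonal_singleton_iff_inner_right).2 hy
  have : Fact (finrank ℝ E = (m + (q + 1)) + 1) := ⟨by rw [hm]; ring⟩
  have hVd : finrank ℝ V = m + (q + 1) := Submodule.finrank_orthogonal_span_singleton hw0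
  obtain ⟨R, hR⟩ := hF.isBounded.exists_norm_le
  set H : ℝ := ‖w‖ * |R| with hH
  have hH0 : 0 ≤ H := by positivity
  have hHa : ∀ a ∈ F, |⟪w, a⟫_ℝ| ≤ H := fun a ha =>
    (abs_real_inner_le_norm _ _).trans (by rw [hH]; gcongr; exact (hR a ha).trans (le_abs_self R))
  set δ : ℝ := 1 / (2 * (1 + H)) with hδ
  have hδ0 : 0 < δ := by positivity
  set c1 : E := c (Fin.succ 0) with hc1
  have hwc1 : ⟪w, c1⟫_ℝ = 1 := hwc 0
  set F₁ : Set E := (fun q : ℝ × E => q.1 • q.2) '' (Icc δ 1 ×ˢ F) ∪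
    (fun q : ℝ × E => c1 + q.1 • (q.2 - c1)) '' (Icc δ 1 ×ˢ F) with hF₁
  have hF₁c : IsCompact F₁ := ((isCompact_Icc.prod hF).image (by fun_prop)).union
    ((isCompact_Icc.prod hF).image (by fun_prop))
  have hF₁C : F₁ ⊆ C := by
    rintro _ (⟨⟨t, x⟩, ⟨ht, hx⟩, rfl⟩ | ⟨⟨t, x⟩, ⟨ht, hx⟩, rfl⟩)
    · exact hC0 x (hFC hx) t ⟨lt_of_lt_of_le hδ0 ht.1, ht.2⟩
    · exact hC _ x (hFC hx) t ⟨lt_of_lt_of_le hδ0 ht.1, ht.2⟩
  set L : Set V := {y | (y : E) + p ∈ F₁} with hL
  have hLc : IsCompact L := by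
    refine Metric.isCompact_of_isClosed_isBounded ?_ ?_
    · exact hF₁c.isClosed.preimage (by fun_prop)
    · obtain ⟨R', hR'⟩ := hF₁c.isBounded.exists_norm_le
      refine isBounded_iff_forall_norm_le.2 ⟨R' + ‖p‖, fun y hy => ?_⟩
      have h1 := hR' _ hy
      calc ‖y‖ = ‖((y : E) + p) - p‖ := by rw [add_sub_cancel_right]; rfl
        _ ≤ ‖(y : E) + p‖ + ‖p‖ := norm_sub_le _ _
        _ ≤ _ := by linarith
  set C' : Set V := {y | (y : E) + p ∈ C} with hC'
  set e2' : V := ⟨e2, hVm e2 hwe⟩ with he2'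
  have hr' : 0 < r - ‖e2 - e0‖ := by linarith
  have hsegL : SegNear L (δ * l) e2' (r - ‖e2 - e0‖) := by
    intro e he1 he3
    have he3' : ‖(e : E) - e2‖ < r - ‖e2 - e0‖ := he3
    have he4 : ‖(e : E) - e0‖ < r := by
      calc ‖(e : E) - e0‖ = ‖((e : E) - e2) + (e2 - e0)‖ := by congr 1; abel
        _ ≤ ‖(e : E) - e2‖ + ‖e2 - e0‖ := norm_add_le _ _
        _ < r := by linarith
    obtain ⟨a, ha1⟩ := hseg e (by simpa using he1) he4
    have haF : a ∈ F := by simpa using ha1 0 ⟨le_rfl, hl.le⟩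
    have hsH := hHa a haF
    set s := ⟪w, a⟫_ℝ with hs
    have hs1 := (abs_le.1 hsH).1
    have hs2 := (abs_le.1 hsH).2
    -- the ratio
    by_cases hs : 1 / 2 ≤ s
    · set k : ℝ := 1 / (2 * s) with hk
      have hs0 : 0 < s := by linarith
      have hk0 : 0 < k := by positivity
      have hk1 : k ≤ 1 := by rw [hk, div_le_one (by positivity)]; linarith
      have hkδ : δ ≤ k := by rw [hk, hδ]; gcongr; linarith
      have hmem : k • a - p ∈ V := by
        refine hVm _ ?_
        rw [inner_sub_right, inner_smul_right, hwp]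
        rw [hk]
        change 1 / (2 * s) * s - 1 / 2 = 0
        field_simp
        ring
      refine ⟨⟨_, hmem⟩, fun t ht => ?_⟩
      refine Or.inl ⟨(k, a + (t / k) • (e : E)), ⟨⟨hkδ, hk1⟩, ha1 _ ⟨?_, ?_⟩⟩, ?_⟩
      · have := ht.1; positivity
      · rw [div_le_iff₀ hk0]
        calc t ≤ δ * l := ht.2
          _ ≤ k * l := by gcongr
          _ = l * k := by ring
      · simp only [Submodule.coe_add, Submodule.coe_smul]
        rw [smul_add, smul_smul, mul_div_cancel₀ _ hk0.ne']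
        abel
    · push Not at hs
      set k : ℝ := 1 / (2 * (1 - s)) with hk
      have hs0 : 0 < 1 - s := by linarith
      have hk0 : 0 < k := by positivity
      have hk1 : k ≤ 1 := by rw [hk, div_le_one (by positivity)]; linarith
      have hkδ : δ ≤ k := by rw [hk, hδ]; gcongr; linarith
      have hmem : c1 + k • (a - c1) - p ∈ V := by
        refine hVm _ ?_
        rw [inner_sub_right, inner_add_right, inner_smul_right, inner_sub_right, hwp, hwc1]
        rw [hk]
        change 1 + 1 / (2 * (1 - s)) * (s - 1) - 1 / 2 = 0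
        field_simp
        ring
      refine ⟨⟨_, hmem⟩, fun t ht => ?_⟩
      refine Or.inr ⟨(k, a + (t / k) • (e : E)), ⟨⟨hkδ, hk1⟩, ha1 _ ⟨?_, ?_⟩⟩, ?_⟩
      · have := ht.1; positivity
      · rw [div_le_iff₀ hk0]
        calc t ≤ δ * l := ht.2
          _ ≤ k * l := by gcongr
          _ = l * k := by ring
      · simp only [Submodule.coe_add, Submodule.coe_smul]
        have h1 : a + (t / k) • (e : E) - c1 = (a - c1) + (t / k) • (e : E) := by abel
        rw [h1, smul_add, smul_smul, mul_div_cancel₀ _ hk0.ne']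
        abel
  have hLne : L.Nonempty := by
    obtain ⟨a, ha⟩ := hsegL e2' (by simpa using he2) (by simpa using hr')
    exact ⟨_, ha 0 ⟨le_rfl, by positivity⟩⟩
  have hLC : L ⊆ C' := fun y hy => hF₁C hy
  -- the new points
  have hmem : ∀ i : Fin (q + 1), (1 / 2 : ℝ) • c i.succ - p ∈ V := by
    intro i
    refine hVm _ ?_
    rw [inner_sub_right, inner_smul_right, hwp, hwc]
    norm_num
  set c' : Fin (q + 1) → V := fun i => ⟨_, hmem i⟩ with hc'
  have hc'a : AffineIndependent ℝ c' := by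
    refine AffineIndependent.of_comp (V.subtype.toAffineMap) ?_
    have h1 : AffineIndependent ℝ (fun i : Fin (q + 1) => c i.succ) :=
      hc.comp_embedding (Fin.succEmb (q + 1))
    have h2 := h1.map' ((1 / 2 : ℝ) • (AffineMap.id ℝ E) - AffineMap.const ℝ E p) (by
      intro x y hxy
      simpa using hxy)
    have h3 : ⇑(V.subtype.toAffineMap) ∘ c' =
        ⇑((1 / 2 : ℝ) • (AffineMap.id ℝ E) - AffineMap.const ℝ E p) ∘ fun i => c i.succ := by
      funext i
      simp [hc']
    rw [h3]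
    exact h2
  have h1 := IH V hVd c' hc'a L C' hLc hLC ?_ e2' (by simpa using he2) _ (δ * l) hr' (by positivity)
    hsegL
  · have h2 := cone_dim V ((2 : ℝ) • w) p (fun y => by rw [inner_smul_left, hVw, mul_zero])
      (by rw [inner_smul_left, hwp]; simp) C' (hLne.mono hLC) C (fun y hy t ht =>
        hC0 _ hy t ⟨by linarith [ht.1], ht.2⟩)
    calc kakeyaDim m + ((q + 2 : ℕ) : ℝ≥0∞) = kakeyaDim m + ((q + 1 : ℕ) : ℝ≥0∞) + 1 := by
          push_cast
          ring
      _ ≤ dimH C' + 1 := by gcongr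
      _ ≤ _ := h2
  · intro i y hy t ht
    have hz : (y : E) + p ∈ C := hy
    have h1 := hC i.succ _ hz (2 * t / (1 + t)) ⟨by have := ht.1; positivity, by
      rw [div_le_one (by linarith [ht.1])]; linarith [ht.2]⟩
    have h2 := hC0 _ h1 ((1 + t) / 2) ⟨by have := ht.1; positivity, by linarith [ht.2]⟩
    change ((c' i + t • (y - c' i) : V) : E) + p ∈ C
    convert h2 using 1
    have ht1 : (1 + t : ℝ) ≠ 0 := by linarith [ht.1]
    simp only [hc', Submodule.coe_add, Submodule.coe_smul, Submodule.coe_sub]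
    match_scalars <;> field_simp <;> ring

/-- **Star-shaped sets.** -/
theorem star_main (m : ℕ) : ∀ (q : ℕ) (E : Type u) [NormedAddCommGroup E] [InnerProductSpace ℝ E]
      [FiniteDimensional ℝ E]
      (_ : finrank ℝ E = m + q) (c : Fin q → E) (_ : AffineIndependent ℝ c)
      (F C : Set E) (_ : IsCompact F) (_ : F ⊆ C)
      (_ : ∀ i, ∀ x ∈ C, ∀ t ∈ Ioc (0 : ℝ) 1, c i + t • (x - c i) ∈ C) (e0 : E) (_ : ‖e0‖ = 1)
      (r l : ℝ) (_ : 0 < r) (_ : 0 < l) (_ : SegNear F l e0 r), kakeyaDim m + (q : ℕ) ≤ dimH C := by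
  intro q
  induction q with
  | zero =>
    intro E _ _ _ hm c _ F C hF hFC _ e0 he0 r l hr hl hseg
    rw [Nat.cast_zero, add_zero]
    exact (kakeyaDim_le_of_segNear (by simpa using hm) hF he0 hr hl hseg).trans (dimH_mono hFC)
  | succ q ih =>
    intro E _ _ _ hm c hc F C hF hFC hC e0 he0 r l hr hl hseg
    set c0 : E := c 0 with hc0
    set F' : Set E := {x | x + c0 ∈ F} with hF'
    set C' : Set E := {x | x + c0 ∈ C} with hC'
    have hF'c : IsCompact F' := by
      have h1 : F' = (fun x => x - c0) '' F := by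
        ext x
        rw [hF', mem_image]
        constructor
        · intro h
          exact ⟨x + c0, h, by abel⟩
        · rintro ⟨y, hy, rfl⟩
          change y - c0 + c0 ∈ F
          rwa [sub_add_cancel]
      rw [h1]
      exact hF.image (by fun_prop)
    have hdim : dimH C' = dimH C := (IsometryEquiv.addRight c0).dimH_preimage C
    have hsub : F' ⊆ C' := fun x hx => hFC hx
    have hseg' : SegNear F' l e0 r := by
      intro e he1 he2
      obtain ⟨a, ha⟩ := hseg e he1 he2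
      refine ⟨a - c0, fun t ht => ?_⟩
      change a - c0 + t • e + c0 ∈ F
      have h1 : a - c0 + t • e + c0 = a + t • e := by abel
      rw [h1]
      exact ha t ht
    rw [← hdim]
    rcases q with _ | q
    · have h1 := star_one (E := E) (m := m) (by simpa using hm) hF'c hsub (fun x hx t ht => by
        have h2 := hC 0 _ hx t ht
        change t • x + c0 ∈ C
        convert h2 using 1
        rw [← hc0, add_sub_cancel_right, add_comm]) he0 hr hl hseg'
      simpa using h1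
    · refine star_step m q ih E (by rw [hm]) (fun i => c i - c0) ?_ (by simp [hc0]) F' C' hF'c hsub
        ?_ e0 he0 r l hr hl hseg'
      · have h2 := hc.map' (AffineMap.id ℝ E - AffineMap.const ℝ E c0) (by
          intro x y hxy
          simpa using hxy)
        have h3 : (fun i => c i - c0) =
            ⇑(AffineMap.id ℝ E - AffineMap.const ℝ E c0) ∘ c := by
          funext i
          simp
        rw [h3]
        exact h2
      · intro i x hx t ht
        have h2 := hC i _ hx t ht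
        change c i - c0 + t • (x - (c i - c0)) + c0 ∈ C
        convert h2 using 1
        module

end Pool.Agent.V7H39.KS
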