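import Pool.Agent.V7H39.KS.Baire
import Pool.Agent.V7H39.KS.Cone

set_option autoImplicit false

open MeasureTheory MeasureTheory.Measure Set Metric Filter Module
open scoped ENNReal NNReal InnerProductSpace Topology

namespace Pool.Agent.V7H39.KS

variable {E : Type*} [NormedAddCommGroup E] [InnerProductSpace ℝ E] [FiniteDimensional ℝ E]

theorem kakeyaDim_le_nat (m : ℕ) : kakeyaDim m ≤ m := by
  have h : IsKakeya (closedBall (0 : EuclideanSpace ℝ (Fin m)) 1) := by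
    refine ⟨isCompact_closedBall _ _, fun e he => ⟨0, fun t ht => ?_⟩⟩
    rw [zero_add, mem_closedBall_zero_iff, norm_smul, he, mul_one, Real.norm_eq_abs,
      abs_of_nonneg ht.1]
    exact ht.2
  refine (kakeyaDim_le h).trans ((dimH_mono (subset_univ _)).trans ?_)
  rw [Real.dimH_univ_eq_finrank]
  simp

theorem full_dim {F C : Set E} (hFC : F ⊆ C)
    (hC : ∀ x ∈ C, ∀ t ∈ Ioc (0 : ℝ) 1, t • x ∈ C) {e2 : E} (he2 : ‖e2‖ = 1) {r2 l : ℝ}
    (hr2 : 0 < r2) (hl : 0 < l)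
    (h : ∀ e, ‖e‖ = 1 → ‖e - e2‖ < r2 →
      ∃ a, (∀ t ∈ Icc (0 : ℝ) l, a + t • e ∈ F) ∧ a = ⟪a, e⟫_ℝ • e) :
    dimH C = finrank ℝ E := by
  have hx0 : (l / 4) • e2 ≠ 0 := by
    intro h0
    have := congrArg norm h0
    rw [norm_smul, he2, norm_zero, mul_one, Real.norm_eq_abs, abs_of_pos (by positivity)] at this
    linarith
  have hn0 : ‖(l / 4) • e2‖ = l / 4 := by
    rw [norm_smul, he2, mul_one, Real.norm_eq_abs, abs_of_pos (by positivity)]
  have hmem : C ∪ (fun x => -x) '' C ∈ 𝓝 ((l / 4) • e2) := by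
    have h1 : ContinuousAt (fun x : E => ‖‖x‖⁻¹ • x - e2‖) ((l / 4) • e2) := by
      refine ContinuousAt.norm (ContinuousAt.sub (ContinuousAt.smul ?_ continuousAt_id)
        continuousAt_const)
      exact ContinuousAt.inv₀ continuous_norm.continuousAt (norm_ne_zero_iff.2 hx0)
    have h2 : ‖‖(l / 4) • e2‖⁻¹ • ((l / 4) • e2) - e2‖ < r2 := by
      rw [hn0, smul_smul, inv_mul_cancel₀ (by positivity), one_smul, sub_self, norm_zero]
      exact hr2
    have h3 : ∀ᶠ x in 𝓝 ((l / 4) • e2), ‖‖x‖⁻¹ • x - e2‖ < r2 := h1.eventually (gt_mem_nhds h2)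
    have h4 : ∀ᶠ x : E in 𝓝 ((l / 4) • e2), ‖x‖ < l / 2 :=
      continuous_norm.continuousAt.eventually (gt_mem_nhds (by simp only [hn0]; linarith))
    have h5 : ∀ᶠ x : E in 𝓝 ((l / 4) • e2), x ≠ 0 := isOpen_ne.eventually_mem hx0
    filter_upwards [h3, h4, h5] with x hx3 hx4 hx5
    have hxn : 0 < ‖x‖ := norm_pos_iff.2 hx5
    set e : E := ‖x‖⁻¹ • x with he
    have he1 : ‖e‖ = 1 := by
      rw [he, norm_smul, norm_inv, norm_norm, inv_mul_cancel₀ hxn.ne']
    have hxe : x = ‖x‖ • e := by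
      rw [he, smul_smul, mul_inv_cancel₀ hxn.ne', one_smul]
    obtain ⟨a, ha, hae⟩ := h e he1 hx3
    set s := ⟪a, e⟫_ℝ with hs
    by_cases hsl : -(l / 2) ≤ s
    · left
      have h6 : (s + l) • e ∈ C := by
        have := hFC (ha l ⟨hl.le, le_rfl⟩)
        rw [hae, ← add_smul] at this
        exact this
      have h7 : 0 < s + l := by linarith
      have h8 := hC _ h6 (‖x‖ / (s + l)) ⟨by positivity, (div_le_one h7).2 (by linarith)⟩
      rw [smul_smul, div_mul_cancel₀ _ h7.ne', ← hxe] at h8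
      exact h8
    · right
      push Not at hsl
      have h6 : s • e ∈ C := by
        have := hFC (ha 0 ⟨le_rfl, hl.le⟩)
        rw [zero_smul, add_zero, hae] at this
        exact this
      have h7 : 0 < -s := by linarith
      have h8 := hC _ h6 (‖x‖ / (-s)) ⟨by positivity, (div_le_one h7).2 (by linarith)⟩
      refine ⟨_, h8, ?_⟩
      have h9 : s ≠ 0 := by linarith
      have h10 : -(‖x‖ / -s * s) = ‖x‖ := by field_simp
      simp only
      rw [smul_smul, ← neg_smul, h10]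
      exact hxe.symm
  have h1 := Real.dimH_of_mem_nhds hmem
  rw [dimH_union] at h1
  have h2 : dimH ((fun x : E => -x) '' C) = dimH C :=
    Isometry.dimH_image (LinearIsometryEquiv.neg ℝ (E := E)).isometry C
  rw [h2, max_self] at h1
  exact h1

theorem slice_dim {m : ℕ} (hm : finrank ℝ E = m + 1) {F C : Set E} (hF : IsCompact F)
    (hFC : F ⊆ C) (hC : ∀ x ∈ C, ∀ t ∈ Ioc (0 : ℝ) 1, t • x ∈ C) {e2 : E} (he2 : ‖e2‖ = 1)
    {r2 l : ℝ} (hr2 : 0 < r2) (hl : 0 < l) (w : E) (hwe : ⟪w, e2⟫_ℝ = 0)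
    (h : ∀ e, ‖e‖ = 1 → ‖e - e2‖ < r2 →
      ∃ a, (∀ t ∈ Icc (0 : ℝ) l, a + t • e ∈ F) ∧ 1 ≤ ⟪w, a⟫_ℝ) :
    kakeyaDim m + 1 ≤ dimH C := by
  obtain ⟨R, hR⟩ := hF.isBounded.exists_norm_le
  have hw0 : w ≠ 0 := by
    obtain ⟨a, -, ha⟩ := h e2 he2 (by simpa using hr2)
    intro h0
    rw [h0, inner_zero_left] at ha
    linarith
  have hwn : 0 < ‖w‖ := norm_pos_iff.2 hw0
  set H : ℝ := ‖w‖ * R with hH
  have hHa : ∀ a ∈ F, ⟪w, a⟫_ℝ ≤ H := fun a ha =>
    (real_inner_le_norm _ _).trans (by rw [hH]; gcongr; exact hR a ha)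
  have hH1 : 1 ≤ H := by
    obtain ⟨a, h1, h2⟩ := h e2 he2 (by simpa using hr2)
    have h3 := h1 0 ⟨le_rfl, hl.le⟩
    rw [zero_smul, add_zero] at h3
    exact h2.trans (hHa a h3)
  set p : E := (‖w‖ ^ 2)⁻¹ • w with hp
  have hwp : ⟪w, p⟫_ℝ = 1 := by
    rw [hp, inner_smul_right, real_inner_self_eq_norm_sq]
    field_simp
  set V : Submodule ℝ E := (ℝ ∙ w)ᗮ with hV
  have hVw : ∀ y : V, ⟪w, (y : E)⟫_ℝ = 0 := fun y =>
    (Submodule.mem_orthogonal_singleton_iff_inner_right).1 y.2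
  have hVm : ∀ y : E, ⟪w, y⟫_ℝ = 0 → y ∈ V := fun y hy =>
    (Submodule.mem_orthogonal_singleton_iff_inner_right).2 hy
  have : Fact (finrank ℝ E = m + 1) := ⟨hm⟩
  have hVd : finrank ℝ V = m := Submodule.finrank_orthogonal_span_singleton hw0
  set F₁ : Set E := (fun q : ℝ × E => q.1 • q.2) '' (Icc (1 / H) 1 ×ˢ F) with hF₁
  have hF₁c : IsCompact F₁ := (isCompact_Icc.prod hF).image (by fun_prop)
  have hF₁C : F₁ ⊆ C := by
    rintro _ ⟨⟨t, x⟩, ⟨ht, hx⟩, rfl⟩
    exact hC x (hFC hx) t ⟨lt_of_lt_of_le (by positivity) ht.1, ht.2⟩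
  set L : Set V := {y | (y : E) + p ∈ F₁} with hL
  have hLc : IsCompact L := by
    refine Metric.isCompact_of_isClosed_isBounded ?_ ?_
    · exact hF₁c.isClosed.preimage (by fun_prop)
    · obtain ⟨R', hR'⟩ := hF₁c.isBounded.exists_norm_le
      refine isBounded_iff_forall_norm_le.2 ⟨R' + ‖p‖, fun y hy => ?_⟩
      have h1 := hR' _ hy
      calc ‖y‖ = ‖((y : E) + p) - p‖ := by rw [add_sub_cancel_right]; rfl
        _ ≤ ‖(y : E) + p‖ + ‖p‖ := norm_sub_le _ _
        _ ≤ _ := by linarith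
  set e2' : V := ⟨e2, hVm e2 hwe⟩ with he2'
  have hseg : SegNear L (l / H) e2' r2 := by
    intro e he1 he3
    obtain ⟨a, ha1, ha2⟩ := h e (by simpa using he1) he3
    set s := ⟪w, a⟫_ℝ with hs
    have hs0 : 0 < s := by linarith
    have haF : a ∈ F := by simpa using ha1 0 ⟨le_rfl, hl.le⟩
    have hsH : s ≤ H := hHa a haF
    have hmem : s⁻¹ • a - p ∈ V := by
      refine hVm _ ?_
      rw [inner_sub_right, inner_smul_right, hwp, ← hs, inv_mul_cancel₀ hs0.ne', sub_self]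
    refine ⟨⟨_, hmem⟩, fun t ht => ?_⟩
    rw [hL]
    refine ⟨(s⁻¹, a + (t * s) • (e : E)), ⟨⟨?_, ?_⟩, ha1 _ ⟨?_, ?_⟩⟩, ?_⟩
    · simp only
      rw [one_div]
      exact inv_anti₀ hs0 hsH
    · exact inv_le_one_of_one_le₀ ha2
    · have := ht.1; positivity
    · calc t * s ≤ (l / H) * H := by
            have := ht.1
            gcongr
            exact ht.2
        _ = l := by field_simp
    · simp only [Submodule.coe_add, Submodule.coe_smul]
      rw [smul_add, smul_smul]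
      have h1 : s⁻¹ * (t * s) = t := by field_simp
      rw [h1]
      abel
  have h1 := kakeyaDim_le_of_segNear hVd hLc (e0 := e2') (by simpa using he2) hr2
    (l := l / H) (by positivity) hseg
  have hne : L.Nonempty := by
    obtain ⟨a, ha⟩ := hseg e2' (by simpa using he2) (by simpa using hr2)
    exact ⟨_, ha 0 ⟨le_rfl, by positivity⟩⟩
  refine le_trans (by gcongr) (cone_dim V w p hVw hwp L hne C ?_)
  intro y hy t ht
  exact hC _ (hF₁C hy) t ⟨by linarith [ht.1], ht.2⟩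

theorem star_one {m : ℕ} (hm : finrank ℝ E = m + 1) {F C : Set E} (hF : IsCompact F)
    (hFC : F ⊆ C) (hC : ∀ x ∈ C, ∀ t ∈ Ioc (0 : ℝ) 1, t • x ∈ C) {e0 : E} (he0 : ‖e0‖ = 1)
    {r l : ℝ} (hr : 0 < r) (hl : 0 < l) (hseg : SegNear F l e0 r) :
    kakeyaDim m + 1 ≤ dimH C := by
  set b := stdOrthonormalBasis ℝ E with hb
  set u : Fin (finrank ℝ E) × Bool → E := fun q => (if q.2 then (1 : ℝ) else -1) • b q.1 with hu
  have hun : ∀ q, ‖u q‖ = 1 := by
    rintro ⟨i, s⟩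
    rw [hu]
    cases s <;> simp
  set Q : Option ((Fin (finrank ℝ E) × Bool) × ℕ) → E × E → Prop := fun o => match o with
    | none => fun p => p.2 = ⟪p.2, p.1⟫_ℝ • p.1
    | some (q, k) => fun p => 1 / ((k : ℝ) + 1) ≤ ⟪u q - ⟪u q, p.1⟫_ℝ • p.1, p.2⟫_ℝ with hQ
  have hQc : ∀ o, IsClosed {p | Q o p} := by
    intro o
    cases o with
    | none => exact isClosed_eq (by fun_prop) (by fun_prop)
    | some q => exact isClosed_le (by fun_prop) (by fun_prop)
  obtain ⟨o, e2, r2, he2, he20, hr2, h⟩ := baire_dirs (fun _ => F) (fun _ => hF) (fun _ => l)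
    (fun _ => hl.le) Q hQc he0 hr (by
      intro e he1 he3
      obtain ⟨a, ha⟩ := hseg e he1 he3
      by_cases h0 : a = ⟪a, e⟫_ℝ • e
      · exact ⟨none, a, ha, h0⟩
      · have h1 : a - ⟪a, e⟫_ℝ • e ≠ 0 := sub_ne_zero.2 h0
        obtain ⟨i, hi⟩ : ∃ i, ⟪b i, a - ⟪a, e⟫_ℝ • e⟫_ℝ ≠ 0 := by
          by_contra hcon
          push Not at hcon
          apply h1
          rw [← b.sum_repr (a - ⟪a, e⟫_ℝ • e)]
          refine Finset.sum_eq_zero fun i _ => ?_
          rw [b.repr_apply_apply, hcon i, zero_smul]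
        set c := ⟪b i, a - ⟪a, e⟫_ℝ • e⟫_ℝ with hc
        have h2 : ∀ s : Bool, ⟪u (i, s) - ⟪u (i, s), e⟫_ℝ • e, a⟫_ℝ = (if s then (1 : ℝ) else -1) * c := by
          intro s
          rw [hu, hc]
          simp only [inner_sub_left, inner_sub_right, inner_smul_left, inner_smul_right,
            real_inner_comm e a, RCLike.conj_to_real]
          ring
        obtain ⟨k, hk⟩ := exists_nat_one_div_lt (abs_pos.2 hi)
        refine ⟨some ((i, decide (0 < c)), k), a, ha, ?_⟩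
        change 1 / ((k : ℝ) + 1) ≤ ⟪u (i, decide (0 < c)) - ⟪u (i, decide (0 < c)), e⟫_ℝ • e, a⟫_ℝ
        rw [h2]
        refine hk.le.trans ?_
        by_cases hc0 : 0 < c
        · simp [hc0, abs_of_pos hc0]
        · simp [hc0, abs_of_nonpos (not_lt.1 hc0)])
  cases o with
  | none =>
    have h1 := full_dim hFC hC he2 hr2 hl h
    rw [h1, hm]
    push_cast
    gcongr
    exact kakeyaDim_le_nat m
  | some qk =>
    obtain ⟨q, k⟩ := qk
    obtain ⟨R, hR⟩ := hF.isBounded.exists_norm_le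
    set R' : ℝ := |R| + 1 with hR'
    have hR'0 : 0 < R' := by positivity
    have hRF : ∀ a ∈ F, ‖a‖ ≤ R' := fun a ha => (hR a ha).trans (by rw [hR']; linarith [le_abs_self R])
    set δ : ℝ := 1 / ((k : ℝ) + 1) with hδ
    have hδ0 : 0 < δ := by positivity
    set w0 : E := u q - ⟪u q, e2⟫_ℝ • e2 with hw0
    have hw0e : ⟪w0, e2⟫_ℝ = 0 := by
      have key : ∀ v : E, ⟪v - ⟪v, e2⟫_ℝ • e2, e2⟫_ℝ = 0 := by
        intro v
        rw [inner_sub_left, real_inner_smul_left, real_inner_self_eq_norm_sq, he2]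
        ring
      exact key _
    refine slice_dim hm hF hFC hC he2 (r2 := min r2 (δ / (4 * R'))) (lt_min hr2 (by positivity)) hl
      ((2 / δ) • w0) (by rw [inner_smul_left, hw0e, mul_zero]) ?_
    intro e he1 he3
    obtain ⟨a, ha1, ha2⟩ := h e he1 (he3.trans_le (min_le_left _ _))
    refine ⟨a, ha1, ?_⟩
    have ha2' : δ ≤ ⟪u q - ⟪u q, e⟫_ℝ • e, a⟫_ℝ := ha2
    have haF : a ∈ F := by simpa using ha1 0 ⟨le_rfl, hl.le⟩
    have h4 : ‖e - e2‖ < δ / (4 * R') := he3.trans_le (min_le_right _ _)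
    have h5 : ‖⟪u q, e⟫_ℝ • e - ⟪u q, e2⟫_ℝ • e2‖ ≤ 2 * ‖e - e2‖ := by
      have h6 : ⟪u q, e⟫_ℝ • e - ⟪u q, e2⟫_ℝ • e2 =
          ⟪u q, e - e2⟫_ℝ • e + ⟪u q, e2⟫_ℝ • (e - e2) := by
        rw [inner_sub_right]
        module
      rw [h6]
      refine (norm_add_le _ _).trans ?_
      rw [norm_smul, norm_smul, he1, mul_one, Real.norm_eq_abs, Real.norm_eq_abs]
      have h7 := abs_real_inner_le_norm (u q) (e - e2)
      have h8 := abs_real_inner_le_norm (u q) e2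
      rw [hun] at h7 h8
      rw [he2] at h8
      nlinarith [norm_nonneg (e - e2)]
    have h9 : ⟪u q - ⟪u q, e⟫_ℝ • e, a⟫_ℝ - ⟪w0, a⟫_ℝ ≤ δ / 2 := by
      rw [← inner_sub_left, hw0]
      have h10 : u q - ⟪u q, e⟫_ℝ • e - (u q - ⟪u q, e2⟫_ℝ • e2) =
          -(⟪u q, e⟫_ℝ • e - ⟪u q, e2⟫_ℝ • e2) := by abel
      rw [h10]
      refine (real_inner_le_norm _ _).trans ?_
      rw [norm_neg]
      calc _ ≤ (2 * ‖e - e2‖) * R' := by
            gcongr
            exact hRF a haF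
        _ ≤ (2 * (δ / (4 * R'))) * R' := by gcongr
        _ = δ / 2 := by field_simp; norm_num
    rw [inner_smul_left, RCLike.conj_to_real]
    have h11 : δ / 2 ≤ ⟪w0, a⟫_ℝ := by linarith
    calc (1 : ℝ) = 2 / δ * (δ / 2) := by field_simp
      _ ≤ _ := by gcongr

end Pool.Agent.V7H39.KS
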