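import Pool.Agent.V7H39.KS.Rot

set_option autoImplicit false

open MeasureTheory MeasureTheory.Measure Set Metric Filter Module
open scoped ENNReal NNReal InnerProductSpace Topology

namespace Pool.Agent.V7H39.KS

universe u

variable {E : Type u} [NormedAddCommGroup E] [InnerProductSpace ℝ E] [FiniteDimensional ℝ E]

theorem rotPt_mem {W V : Submodule ℝ E} (hWV : W ≤ V) {K : Set E}
    (hsym : ∀ x ∈ K, ∀ y, x - y ∈ Wᗮ → ‖x‖ = ‖y‖ → y ∈ K) (h : V) (hh : ‖h‖ = 1)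
    (hW : (h : E) ∈ Wᗮ) (x : V) (hx : (x : E) ∈ K) (y : Vᗮ) (hy : ‖y‖ ≤ 1) : rotPt V h x y ∈ K := by
  refine hsym x hx _ ?_ ?_
  · have h1 : (x : E) - rotPt V h x y =
        -((⟪h, x⟫_ℝ * √(1 - ‖y‖ ^ 2) - ⟪h, x⟫_ℝ) • (h : E) + ⟪h, x⟫_ℝ • (y : E)) := by
      rw [rotPt]
      simp only [Submodule.coe_add, Submodule.coe_smul]
      abel
    rw [h1]
    refine Submodule.neg_mem _ (Submodule.add_mem _ (Submodule.smul_mem _ _ hW)
      (Submodule.smul_mem _ _ ?_))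
    exact Submodule.orthogonal_le hWV y.2
  · have h2 : ‖rotPt V h x y‖ ^ 2 = ‖(x : E)‖ ^ 2 := by
      rw [rotPt, norm_sq_add, norm_smul, mul_pow, Real.norm_eq_abs, sq_abs,
        @norm_add_sq_real, inner_smul_right, norm_smul, hh, mul_one, Real.norm_eq_abs, sq_abs,
        real_inner_comm h x]
      have h3 := Real.sq_sqrt (show 0 ≤ 1 - ‖y‖ ^ 2 by nlinarith [norm_nonneg y])
      rw [Submodule.coe_norm]
      linear_combination ⟪h, x⟫_ℝ ^ 2 * h3
    exact ((sq_eq_sq₀ (norm_nonneg _) (norm_nonneg _)).1 h2).symm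

theorem exists_frame (W : Submodule ℝ E) (hW : finrank ℝ W + 2 ≤ finrank ℝ E) {e0 : E}
    (he0 : ‖e0‖ = 1) {r : ℝ} (hr : 0 < r) :
    ∃ (e1 f g : E) (κ : ℝ), ‖e1‖ = 1 ∧ ‖e1 - e0‖ < r ∧ ‖f‖ = 1 ∧ ‖g‖ = 1 ∧ f ∈ Wᗮ ∧ g ∈ Wᗮ ∧
      ⟪f, g⟫_ℝ = 0 ∧ 0 < κ ∧ e1 = W.starProjection e1 + κ • f ∧ ⟪f, e1⟫_ℝ = κ := by
  have hWtop : W ≠ ⊤ := by
    intro h
    rw [h, finrank_top] at hW
    omega
  obtain ⟨e1, he1, he10, he1W⟩ := exists_unit_notMem W hWtop he0 hr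
  set v0 : E := e1 - W.starProjection e1 with hv0
  have hv0W : v0 ∈ Wᗮ := W.sub_starProjection_mem_orthogonal e1
  have hv00 : v0 ≠ 0 := by
    intro h0
    rw [hv0, sub_eq_zero] at h0
    exact he1W (h0 ▸ W.starProjection_apply_mem e1)
  have hκ0 : 0 < ‖v0‖ := norm_pos_iff.2 hv00
  obtain ⟨f, hf⟩ : ∃ f : E, f = ‖v0‖⁻¹ • v0 := ⟨_, rfl⟩
  have hfn : ‖f‖ = 1 := by rw [hf, norm_smul, norm_inv, norm_norm, inv_mul_cancel₀ hκ0.ne']
  have hfW : f ∈ Wᗮ := hf ▸ Submodule.smul_mem _ _ hv0W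
  have hv0f : v0 = ‖v0‖ • f := by rw [hf, smul_smul, mul_inv_cancel₀ hκ0.ne', one_smul]
  have he1dec : e1 = W.starProjection e1 + ‖v0‖ • f := by rw [← hv0f, hv0]; abel
  have hfe1 : ⟪f, e1⟫_ℝ = ‖v0‖ := by
    rw [he1dec, inner_add_right, inner_smul_right, real_inner_self_eq_norm_sq, hfn,
      Submodule.inner_left_of_mem_orthogonal (W.starProjection_apply_mem e1) hfW]
    ring
  obtain ⟨g, hgn, hgW, hfg⟩ : ∃ g : E, ‖g‖ = 1 ∧ g ∈ Wᗮ ∧ ⟪f, g⟫_ℝ = 0 := by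
    set S : Submodule ℝ E := W ⊔ (ℝ ∙ f) with hS
    have h1 : finrank ℝ S ≤ finrank ℝ W + 1 := by
      refine (Submodule.finrank_add_le_finrank_add_finrank _ _).trans ?_
      gcongr
      rw [finrank_span_singleton]
      rw [← norm_ne_zero_iff, hfn]
      exact one_ne_zero
    have h2 := S.finrank_add_finrank_orthogonal
    have h3 : Sᗮ ≠ ⊥ := by
      intro h
      rw [h, finrank_bot] at h2
      omega
    obtain ⟨g0, hg0, hg00⟩ := Submodule.exists_mem_ne_zero_of_ne_bot h3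
    have h4 : 0 < ‖g0‖ := norm_pos_iff.2 hg00
    refine ⟨‖g0‖⁻¹ • g0, ?_, Submodule.smul_mem _ _ (Submodule.orthogonal_le le_sup_left hg0), ?_⟩
    · rw [norm_smul, norm_inv, norm_norm, inv_mul_cancel₀ h4.ne']
    · rw [inner_smul_right, Submodule.inner_right_of_mem_orthogonal
        ((le_sup_right : (ℝ ∙ f) ≤ S) (Submodule.mem_span_singleton_self f)) hg0, mul_zero]
  exact ⟨e1, f, g, ‖v0‖, he1, he10, hfn, hgn, hfW, hgW, hfg, hκ0, he1dec, hfe1⟩

theorem frame_dec (W : Submodule ℝ E) (f g : E) (hfn : ‖f‖ = 1) (hgn : ‖g‖ = 1) (hfW : f ∈ Wᗮ)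
    (hgW : g ∈ Wᗮ) (hfg : ⟪f, g⟫_ℝ = 0) (x : E) (hx : x ∈ W ⊔ Submodule.span ℝ {f, g}) :
    ∃ w ∈ W, x = w + (⟪f, x⟫_ℝ • f + ⟪g, x⟫_ℝ • g) := by
  obtain ⟨w, hw, z, hz, rfl⟩ := Submodule.mem_sup.1 hx
  obtain ⟨a, b, rfl⟩ := Submodule.mem_span_pair.1 hz
  refine ⟨w, hw, ?_⟩
  have h1 : ⟪f, w + (a • f + b • g)⟫_ℝ = a := by
    rw [inner_add_right, inner_add_right, inner_smul_right, inner_smul_right, hfg,
      real_inner_self_eq_norm_sq, hfn, Submodule.inner_left_of_mem_orthogonal hw hfW]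
    ring
  have h2 : ⟪g, w + (a • f + b • g)⟫_ℝ = b := by
    rw [inner_add_right, inner_add_right, inner_smul_right, inner_smul_right,
      real_inner_comm f g, hfg, real_inner_self_eq_norm_sq, hgn,
      Submodule.inner_left_of_mem_orthogonal hw hgW]
    ring
  rw [h1, h2]

theorem frame_finrank (W : Submodule ℝ E) (f g : E) (hfn : ‖f‖ = 1) (hgn : ‖g‖ = 1)
    (hfW : f ∈ Wᗮ) (hgW : g ∈ Wᗮ) (hfg : ⟪f, g⟫_ℝ = 0) :
    finrank ℝ (W ⊔ Submodule.span ℝ {f, g} : Submodule ℝ E) = finrank ℝ W + 2 := by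
  have h1 := Submodule.finrank_sup_add_finrank_inf_eq W (Submodule.span ℝ {f, g})
  have h2 : W ⊓ Submodule.span ℝ {f, g} = ⊥ := by
    rw [eq_bot_iff]
    intro x hx
    have h3 : Submodule.span ℝ {f, g} ≤ Wᗮ := by
      rw [Submodule.span_le]
      rintro y (rfl | rfl)
      · exact hfW
      · exact hgW
    have h4 : x ∈ W ⊓ Wᗮ := ⟨hx.1, h3 hx.2⟩
    rwa [Submodule.inf_orthogonal_eq_bot] at h4
  have h3 : finrank ℝ (Submodule.span ℝ {f, g}) = 2 := by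
    have h4 : Orthonormal ℝ ![f, g] := by
      have hgf : ⟪g, f⟫_ℝ = 0 := by rw [real_inner_comm]; exact hfg
      rw [orthonormal_iff_ite]
      intro i j
      fin_cases i <;> fin_cases j <;> simp [hfn, hgn, hfg, hgf]
    have h5 := finrank_span_eq_card h4.linearIndependent
    rw [Matrix.range_cons, Matrix.range_cons, Matrix.range_empty, union_empty] at h5
    rw [show ({f, g} : Set E) = {f} ∪ {g} from rfl, h5]
    simp
  rw [h2, finrank_bot, h3, add_zero] at h1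
  exact h1

/-- **Symmetric sets.** -/
theorem sym_main {m q N : ℕ} (hN : m + q = N) (hn : N ≤ finrank ℝ E) (W : Submodule ℝ E)
    (hW : finrank ℝ W + 2 = N) (K : Set E) (hK : IsCompact K)
    (hsym : ∀ x ∈ K, ∀ y, x - y ∈ Wᗮ → ‖x‖ = ‖y‖ → y ∈ K) (c : Fin q → E) (hcW : ∀ i, c i ∈ W)
    (hc : AffineIndependent ℝ c)
    (hstar : ∀ i, ∀ x ∈ K, ∀ t ∈ Ioc (0 : ℝ) 1, c i + t • (x - c i) ∈ K)
    {e0 : E} (he0 : ‖e0‖ = 1) {r l : ℝ} (hr : 0 < r) (hl : 0 < l) (hseg : SegNear K l e0 r) :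
    kakeyaDim m + (q : ℕ) + ((finrank ℝ E - N : ℕ) : ℝ≥0∞) ≤ dimH K := by
  obtain ⟨e1, f, g, κ, he1, he10, hfn, hgn, hfW, hgW, hfg, hκ0, he1dec, hfe1⟩ :=
    exists_frame W (by omega) he0 hr
  have hgf : ⟪g, f⟫_ℝ = 0 := by rw [real_inner_comm]; exact hfg
  set V : Submodule ℝ E := W ⊔ Submodule.span ℝ {f, g} with hV
  have hWV : W ≤ V := le_sup_left
  have hfV : f ∈ V := (le_sup_right : Submodule.span ℝ {f, g} ≤ V)
    (Submodule.subset_span (by simp))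
  have hgV : g ∈ V := (le_sup_right : Submodule.span ℝ {f, g} ≤ V)
    (Submodule.subset_span (by simp))
  have hdec := frame_dec W f g hfn hgn hfW hgW hfg
  have hVN : finrank ℝ V = N := by rw [hV, frame_finrank W f g hfn hgn hfW hgW hfg, hW]
  have he1V : e1 ∈ V := by
    rw [he1dec]
    exact V.add_mem (hWV (W.starProjection_apply_mem e1)) (V.smul_mem _ hfV)
  set L : Set V := {x | (x : E) ∈ K} with hL
  have hLc : IsCompact L := by
    refine Metric.isCompact_of_isClosed_isBounded ?_ ?_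
    · exact hK.isClosed.preimage (by fun_prop)
    · obtain ⟨R', hR'⟩ := hK.isBounded.exists_norm_le
      exact isBounded_iff_forall_norm_le.2 ⟨R', fun y hy => hR' _ hy⟩
  set ε : ℝ := κ * l / 8 with hε
  have hε0 : 0 < ε := by positivity
  set F : Set V := L ∩ {x | ε ≤ |⟪f, (x : E)⟫_ℝ|} with hF
  set D : Set V := L ∩ {x | (x : E) ∉ W} with hD
  have hFc : IsCompact F := hLc.inter_right (isClosed_le continuous_const (by fun_prop))
  have hFD : F ⊆ D := by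
    rintro x ⟨h1, h2⟩
    refine ⟨h1, fun h3 => ?_⟩
    have h4 : ε ≤ |⟪f, (x : E)⟫_ℝ| := h2
    rw [Submodule.inner_left_of_mem_orthogonal h3 hfW, abs_zero] at h4
    linarith
  set r2 : ℝ := min (r - ‖e1 - e0‖) (κ / 2) with hr2
  have hr20 : 0 < r2 := lt_min (by linarith) (by positivity)
  have hsegF : SegNear F (l / 4) (⟨e1, he1V⟩ : V) r2 := by
    intro e he he'
    have hen : ‖(e : E)‖ = 1 := he
    have he3 : ‖(e : E) - e1‖ < r2 := he'
    have he4 : ‖(e : E) - e0‖ < r := by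
      have h1 : ‖(e : E) - e1‖ < r - ‖e1 - e0‖ := he3.trans_le (min_le_left _ _)
      calc ‖(e : E) - e0‖ = ‖((e : E) - e1) + (e1 - e0)‖ := by congr 1; abel
        _ ≤ ‖(e : E) - e1‖ + ‖e1 - e0‖ := norm_add_le _ _
        _ < r := by linarith
    have hα : κ / 2 ≤ ⟪f, (e : E)⟫_ℝ := by
      have h1 := abs_real_inner_le_norm f ((e : E) - e1)
      rw [hfn, one_mul, inner_sub_right, hfe1] at h1
      have h2 : ‖(e : E) - e1‖ < κ / 2 := he3.trans_le (min_le_right _ _)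
      have h3 := (abs_le.1 h1).1
      linarith
    obtain ⟨a, ha⟩ := hseg e hen he4
    obtain ⟨we, hwe, hedec⟩ := hdec e e.2
    obtain ⟨a', ha'V, ha'⟩ := rot_seg W f g hfn hgn hfW hgW hfg e we hwe _ _ hedec
      (by linarith) K hsym a
    set α : ℝ := ⟪f, (e : E)⟫_ℝ with hαd
    have hin : ∀ t : ℝ, ⟪f, a' + t • (e : E)⟫_ℝ = ⟪f, a'⟫_ℝ + t * α := by
      intro t
      rw [inner_add_right, inner_smul_right]
    by_cases hmid : 0 ≤ ⟪f, a'⟫_ℝ + l / 2 * α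
    · refine ⟨⟨a' + (3 * l / 4) • (e : E), V.add_mem ha'V (V.smul_mem _ e.2)⟩, fun t ht => ?_⟩
      have h1 : a' + (3 * l / 4) • (e : E) + t • (e : E) = a' + (3 * l / 4 + t) • (e : E) := by
        rw [add_assoc, ← add_smul]
      refine ⟨?_, ?_⟩
      · change a' + (3 * l / 4) • (e : E) + t • (e : E) ∈ K
        rw [h1]
        exact ha' _ (ha _ ⟨by have := ht.1; positivity, by linarith [ht.2]⟩)
      · change ε ≤ |⟪f, a' + (3 * l / 4) • (e : E) + t • (e : E)⟫_ℝ|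
        rw [h1, hin]
        refine le_trans ?_ (le_abs_self _)
        have h2 : l / 4 * (κ / 2) ≤ (l / 4 + t) * α := by
          have := ht.1
          gcongr
          linarith
        rw [hε]
        nlinarith
    · push Not at hmid
      refine ⟨⟨a', ha'V⟩, fun t ht => ?_⟩
      refine ⟨?_, ?_⟩
      · change a' + t • (e : E) ∈ K
        exact ha' _ (ha _ ⟨ht.1, by linarith [ht.2]⟩)
      · change ε ≤ |⟪f, a' + t • (e : E)⟫_ℝ|
        rw [hin]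
        refine le_trans ?_ (neg_le_abs _)
        have h3 : l / 4 ≤ l / 2 - t := by linarith [ht.2]
        have h2 : l / 4 * (κ / 2) ≤ (l / 2 - t) * α :=
          mul_le_mul h3 hα (by positivity) (by linarith [ht.2])
        rw [hε]
        nlinarith
  -- the star-shaped part
  have hDstar := star_main m q V (by rw [hVN, hN]) (fun i => ⟨c i, hWV (hcW i)⟩) (by
      refine AffineIndependent.of_comp (V.subtype.toAffineMap) ?_
      exact hc) F D hFc hFD (by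
      intro i x hx t ht
      refine ⟨hstar i x hx.1 t ht, fun h => hx.2 ?_⟩
      have h1 : c i + t • ((x : E) - c i) ∈ W := h
      have h2 : t • ((x : E) - c i) ∈ W := (W.add_mem_iff_right (hcW i)).1 h1
      have h3 : (x : E) - c i ∈ W := (W.smul_mem_iff ht.1.ne').1 h2
      exact (W.sub_mem_iff_left (hcW i)).1 h3)
    ⟨e1, he1V⟩ he1 r2 (l / 4) hr20 (by positivity) hsegF
  have hDne : D.Nonempty := by
    obtain ⟨a, ha⟩ := hsegF ⟨e1, he1V⟩ he1 (by simpa using hr20)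
    exact ⟨_, hFD (ha 0 ⟨le_rfl, by positivity⟩)⟩
  -- lifting
  set fV : V := ⟨f, hfV⟩ with hfVd
  set gV : V := ⟨g, hgV⟩ with hgVd
  set h4 : Fin 4 → V := ![fV, -fV, gV, -gV] with hh4
  have h4n : ∀ j, ‖h4 j‖ = 1 := by
    have h1 : ‖fV‖ = 1 := hfn
    have h2 : ‖gV‖ = 1 := hgn
    intro j
    fin_cases j <;> simp [hh4, h1, h2]
  have h4W : ∀ j, ((h4 j : V) : E) ∈ Wᗮ := by
    intro j
    fin_cases j
    · exact hfW
    · exact Submodule.neg_mem _ hfW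
    · exact hgW
    · exact Submodule.neg_mem _ hgW
  set A : ℕ × Fin 4 → Set V := fun q => {x | (x : E) ∈ K ∧ 1 / ((q.1 : ℝ) + 1) ≤ ⟪h4 q.2, x⟫_ℝ}
    with hA
  have hAle : ∀ q, (A q).Nonempty → dimH (A q) + finrank ℝ Vᗮ ≤ dimH K := by
    intro q hq
    exact lift_dim V (h4 q.2) (h4n q.2) K (A q) hq (1 / ((q.1 : ℝ) + 1)) (by positivity)
      (fun x hx => hx.2) (fun x hx y hy => rotPt_mem hWV hsym (h4 q.2) (h4n q.2) (h4W q.2) x hx.1 y hy)
  have hDA : D ⊆ ⋃ q, A q := by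
    intro x hx
    rw [mem_iUnion]
    obtain ⟨w, hw, hxw⟩ := hdec x x.2
    by_cases h1 : ⟪f, (x : E)⟫_ℝ = 0
    · have h2 : ⟪g, (x : E)⟫_ℝ ≠ 0 := by
        intro h2
        rw [h1, h2, zero_smul, zero_smul, add_zero, add_zero] at hxw
        exact hx.2 (hxw ▸ hw)
      obtain ⟨k, hk⟩ := exists_nat_one_div_lt (abs_pos.2 h2)
      rcases lt_or_gt_of_ne h2 with h3 | h3
      · refine ⟨(k, 3), hx.1, hk.le.trans ?_⟩
        rw [abs_of_neg h3]
        change -⟪g, (x : E)⟫_ℝ ≤ ⟪-g, (x : E)⟫_ℝ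
        rw [inner_neg_left]
      · refine ⟨(k, 2), hx.1, hk.le.trans ?_⟩
        rw [abs_of_pos h3]
        change ⟪g, (x : E)⟫_ℝ ≤ ⟪g, (x : E)⟫_ℝ
        exact le_rfl
    · obtain ⟨k, hk⟩ := exists_nat_one_div_lt (abs_pos.2 h1)
      rcases lt_or_gt_of_ne h1 with h3 | h3
      · refine ⟨(k, 1), hx.1, hk.le.trans ?_⟩
        rw [abs_of_neg h3]
        change -⟪f, (x : E)⟫_ℝ ≤ ⟪-f, (x : E)⟫_ℝ
        rw [inner_neg_left]
      · refine ⟨(k, 0), hx.1, hk.le.trans ?_⟩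
        rw [abs_of_pos h3]
        change ⟪f, (x : E)⟫_ℝ ≤ ⟪f, (x : E)⟫_ℝ
        exact le_rfl
  have hcK : ((finrank ℝ Vᗮ : ℕ) : ℝ≥0∞) ≤ dimH K := by
    obtain ⟨x, hx⟩ := hDne
    obtain ⟨q, hq⟩ := mem_iUnion.1 (hDA hx)
    exact le_trans le_add_self (hAle q ⟨x, hq⟩)
  have hDK : dimH D + finrank ℝ Vᗮ ≤ dimH K := by
    refine le_trans (add_le_add_left (dimH_mono hDA) _) ?_
    rw [dimH_iUnion, ENNReal.iSup_add]
    refine iSup_le fun q => ?_
    rcases (A q).eq_empty_or_nonempty with h1 | h1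
    · rw [h1, dimH_empty, zero_add]
      exact hcK
    · exact hAle q h1
  have hfin : finrank ℝ E - N = finrank ℝ Vᗮ := by
    have := V.finrank_add_finrank_orthogonal
    omega
  rw [hfin]
  exact le_trans (by gcongr) hDK

end Pool.Agent.V7H39.KS
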